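import Pool.Agent.Lib.MP_6b2d39_agVx.CertX
import Pool.Agent.Lib.MP_6b2d39_agVn.FinV
import Pool.Agent.Lib.MP_6b2d39_agUn.AppU
import Pool.Agent.Lib.MP_6b2d39_agUn.Lower
import Pool.Agent.Lib.MP_6b2d39_agHw.Fin

/-!
The window for nine arbitrary multiplicities, with a free parameter.

PROOF. The proof of `win_w` (`Vw/WinW.lean`), with `cert_neg`, `cert_pos` of `Vx/CertX.lean`.
-/

open Polynomial

set_option autoImplicit false

namespace Pool.Agent.Lib.MP_6b2d39_agVx

open Pool.Agent.Lib.MP_6b2d39_ag Pool.Agent.Lib.MP_6b2d39_agHal Pool.Agent.Lib.MP_6b2d39_agVn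
  Pool.Agent.Lib.MP_6b2d39_agUn Pool.Agent.Lib.MP_6b2d39_agCr

open Pool.Agent.Lib.MP_6b2d39_agWin Pool.Agent.Lib.MP_6b2d39_agNw

private theorem winX_split {h : ℕ} (τ : Fin 9 ↪ Fin h) (f : Fin h → ℕ) :
    ∑ l, f l = ∑ i, f (τ i) +
      ∑ l ∈ Finset.univ.filter (fun l => l ∉ Finset.univ.map τ), f l := by
  rw [← Finset.sum_filter_add_sum_filter_not Finset.univ (fun l => l ∈ Finset.univ.map τ) f]
  congr 1
  rw [← Finset.sum_map Finset.univ τ f]
  apply Finset.sum_congr _ (fun _ _ => rfl)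
  ext l
  simp

private theorem winX_vd {h e : ℕ} (τ : Fin 9 ↪ Fin h) (n : Fin h → ℕ) :
    vd e n = (((e + 2).choose 2 : ℕ) : ℤ) - ((∑ i, (n (τ i) + 1).choose 2 : ℕ) : ℤ) -
      ((∑ l ∈ Finset.univ.filter (fun l => l ∉ Finset.univ.map τ), (n l + 1).choose 2 : ℕ) : ℤ) := by
  have h2 := winX_split τ (fun l => (n l + 1).choose 2)
  unfold vd
  have h3 : (∑ i, ((n i + 1).choose 2 : ℤ)) = ((∑ l, (n l + 1).choose 2 : ℕ) : ℤ) := by
    push_cast
    rfl
  rw [h3, h2]
  push_cast
  ring

private theorem winX_all {h u : ℕ} (τ : Fin 9 ↪ Fin h) :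
    ((Finset.univ.filter (fun l : Fin h => l ∉ Finset.univ.map τ)).map
      Function.Embedding.inl) ∪ (Finset.univ : Finset (Fin u)).map Function.Embedding.inr =
      (Finset.univ.filter (fun i : Fin h ⊕ Fin u => ∀ l, i ≠ Sum.inl (τ l))) := by
  ext i
  rw [Finset.mem_union, Finset.mem_map, Finset.mem_map, Finset.mem_filter]
  constructor
  · rintro (⟨l, hl, rfl⟩ | ⟨l, -, rfl⟩)
    · refine ⟨Finset.mem_univ _, fun l' heq => ?_⟩
      rw [Finset.mem_filter] at hl
      apply hl.2
      have h1 : l = τ l' := Sum.inl_injective heq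
      rw [h1]
      exact Finset.mem_map_of_mem τ (Finset.mem_univ l')
    · refine ⟨Finset.mem_univ _, fun l' heq => ?_⟩
      simp at heq
  · rintro ⟨-, hi⟩
    rcases i with l | l
    · left
      refine ⟨l, ?_, rfl⟩
      rw [Finset.mem_filter]
      refine ⟨Finset.mem_univ _, fun hl => ?_⟩
      rw [Finset.mem_map] at hl
      obtain ⟨l', -, h1⟩ := hl
      exact hi l' (by rw [h1])
    · right
      exact ⟨l, Finset.mem_univ _, rfl⟩

private theorem winX_massJ {h u : ℕ} (τ : Fin 9 ↪ Fin h) (n : Fin h → ℕ) :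
    mass (Sum.elim n (fun _ => 1) : Fin h ⊕ Fin u → ℕ)
      ((Finset.univ.filter (fun l : Fin h => l ∉ Finset.univ.map τ)).map
        Function.Embedding.inl) =
      ∑ l ∈ Finset.univ.filter (fun l => l ∉ Finset.univ.map τ), (n l + 1).choose 2 := by
  unfold mass
  rw [Finset.sum_map]
  simp only [Function.Embedding.inl_apply, Sum.elim_inl]

private theorem winX_finite {n : ℕ} (e : ℕ) (μ : Fin n → ℕ) (P : Fin n → Fin 3 → ℂ) :
    Module.Finite ℂ (curves e μ P) := by
  classical
  let S : Finset (Fin 3 →₀ ℕ) := Finset.finsuppAntidiag Finset.univ e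
  let g : curves e μ P →ₗ[ℂ] (S → ℂ) :=
    (LinearMap.pi fun u : S => MvPolynomial.lcoeff ℂ (u : Fin 3 →₀ ℕ)).comp
      (curves e μ P).subtype
  refine Module.Finite.of_injective g ?_
  rw [← LinearMap.ker_eq_bot, LinearMap.ker_eq_bot']
  rintro ⟨F, hF⟩ h0
  have hF1 : F.IsHomogeneous e := hF.1
  refine Subtype.ext ?_
  show F = 0
  ext u
  rw [MvPolynomial.coeff_zero]
  by_cases hu : u ∈ S
  · exact congrFun h0 ⟨u, hu⟩
  · refine hF1.coeff_eq_zero fun h => hu ?_
    simp only [S, Finset.mem_finsuppAntidiag, Finset.subset_univ, and_true]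
    rw [← h, Finsupp.degree_eq_sum]

private theorem winX_anti {n e : ℕ} {μ ν : Fin n → ℕ} (hle : ∀ i, ν i ≤ μ i)
    (P : Fin n → Fin 3 → ℂ) :
    Module.finrank ℂ (curves e μ P) ≤ Module.finrank ℂ (curves e ν P) := by
  have h1 : curves e μ P ≤ curves e ν P := by
    unfold curves
    refine inf_le_inf le_rfl (iInf_mono fun i => ?_)
    intro F hF
    exact Ideal.pow_le_pow_right (hle i) hF
  have := winX_finite e ν P
  exact Submodule.finrank_mono h1

private theorem winX_update {n d : ℕ} (μ : Fin n → ℕ) (i : Fin n) (hi : μ i ≠ 0) :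
    vd d (Function.update μ i (μ i - 1)) = vd d μ + μ i := by
  unfold vd
  have h1 : ∑ j, ((μ j + 1).choose 2 : ℤ) =
      ((μ i + 1).choose 2 : ℤ) + ∑ j ∈ Finset.univ.erase i, ((μ j + 1).choose 2 : ℤ) :=
    (Finset.add_sum_erase _ _ (Finset.mem_univ i)).symm
  have h2 : ∑ j, ((Function.update μ i (μ i - 1) j + 1).choose 2 : ℤ) =
      ((Function.update μ i (μ i - 1) i + 1).choose 2 : ℤ) +
        ∑ j ∈ Finset.univ.erase i, ((Function.update μ i (μ i - 1) j + 1).choose 2 : ℤ) :=
    (Finset.add_sum_erase _ _ (Finset.mem_univ i)).symm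
  have h3 : ∑ j ∈ Finset.univ.erase i, ((Function.update μ i (μ i - 1) j + 1).choose 2 : ℤ) =
      ∑ j ∈ Finset.univ.erase i, ((μ j + 1).choose 2 : ℤ) := by
    refine Finset.sum_congr rfl fun j hj => ?_
    rw [Function.update_of_ne (Finset.ne_of_mem_erase hj)]
  have h4 : ((μ i + 1).choose 2 : ℤ) = ((μ i - 1 + 1).choose 2 : ℤ) + μ i := by
    obtain ⟨a, ha⟩ := Nat.exists_eq_succ_of_ne_zero hi
    rw [ha]
    have h5 : (a.succ + 1).choose 2 = (a + 1).choose 1 + (a + 1).choose 2 :=
      Nat.choose_succ_succ (a + 1) 1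
    have h6 : a.succ - 1 = a := rfl
    rw [h5, h6, Nat.choose_one_right]
    push_cast
    ring
  rw [h1, h2, h3, Function.update_self, h4]
  ring

/-- lowering the light multiplicities one by one -/
private theorem winX_lower {h e M W : ℕ} (τ : Fin 9 ↪ Fin h) {a : Fin 10 → ℕ} (he : e = dg a) :
    ∀ (s : ℕ) (n : Fin h → ℕ),
    ∑ l ∈ Finset.univ.filter (fun l => l ∉ Finset.univ.map τ), n l = s →
    (∀ i, n (τ i) = mu a i) → (∀ j, j ∉ Finset.univ.map τ → n j ≤ M) → vd e n ≤ -(W : ℤ) →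
    ∃ n' : Fin h → ℕ, (∀ i, n' i ≤ n i) ∧ (∀ i, n' (τ i) = mu a i) ∧ vd e n' ≤ -(W : ℤ) ∧
      -((W : ℤ) + M) ≤ vd e n' := by
  have hzero : ∀ n : Fin h → ℕ, (∀ i, n (τ i) = mu a i) →
      (∀ l ∈ Finset.univ.filter (fun l => l ∉ Finset.univ.map τ), n l = 0) → 0 < vd e n := by
    intro n hn h0
    rw [winX_vd τ n]
    have h1 : ∑ l ∈ Finset.univ.filter (fun l => l ∉ Finset.univ.map τ), (n l + 1).choose 2 =
        0 := by
      refine Finset.sum_eq_zero fun l hl => ?_
      rw [h0 l hl]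
      rfl
    have h2 : ∑ i, (n (τ i) + 1).choose 2 = ∑ i, (mu a i + 1).choose 2 := by
      refine Finset.sum_congr rfl fun i _ => ?_
      rw [hn i]
    have h3 := om_chi a
    rw [h1, h2, he]
    have h4 : ∑ i, (mu a i + 1).choose 2 < (dg a + 2).choose 2 := by omega
    have h5 : ((∑ i, (mu a i + 1).choose 2 : ℕ) : ℤ) < (((dg a + 2).choose 2 : ℕ) : ℤ) := by
      exact_mod_cast h4
    rw [Nat.cast_zero, sub_zero]
    linarith
  have hW : (0 : ℤ) ≤ W := Int.natCast_nonneg _
  intro s
  induction s with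
  | zero =>
    intro n hs hn _ hv
    exfalso
    have := hzero n hn fun l hl => Finset.sum_eq_zero_iff.1 hs l hl
    linarith
  | succ s ih =>
    intro n hs hn hl hv
    by_cases hge : -((W : ℤ) + M) ≤ vd e n
    · exact ⟨n, fun i => le_rfl, hn, hv, hge⟩
    · have hex : ∃ i ∈ Finset.univ.filter (fun l => l ∉ Finset.univ.map τ), n i ≠ 0 := by
        by_contra hcon
        push Not at hcon
        have := hzero n hn hcon
        linarith
      obtain ⟨i, hiS, hi⟩ := hex
      have hiτ : i ∉ Finset.univ.map τ := (Finset.mem_filter.1 hiS).2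
      have hup : ∀ j, Function.update n i (n i - 1) j ≤ n j := by
        intro j
        by_cases hj : j = i
        · rw [hj, Function.update_self]
          omega
        · rw [Function.update_of_ne hj]
      have hsum : ∑ j ∈ Finset.univ.filter (fun l => l ∉ Finset.univ.map τ),
          Function.update n i (n i - 1) j = s := by
        have h1 := (Finset.add_sum_erase _ (fun j => n j) hiS).symm
        have h2 := (Finset.add_sum_erase _ (fun j => Function.update n i (n i - 1) j) hiS).symm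
        have h3 : ∑ j ∈ (Finset.univ.filter (fun l => l ∉ Finset.univ.map τ)).erase i,
            Function.update n i (n i - 1) j =
            ∑ j ∈ (Finset.univ.filter (fun l => l ∉ Finset.univ.map τ)).erase i, n j := by
          refine Finset.sum_congr rfl fun j hj => ?_
          rw [Function.update_of_ne (Finset.ne_of_mem_erase hj)]
        simp only [Function.update_self] at h2
        rw [h2, h3]
        omega
      have hn' : ∀ k, Function.update n i (n i - 1) (τ k) = mu a k := by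
        intro k
        have hne : τ k ≠ i := fun hk =>
          hiτ (hk ▸ Finset.mem_map_of_mem τ (Finset.mem_univ k))
        rw [Function.update_of_ne hne]
        exact hn k
      have hv' : vd e (Function.update n i (n i - 1)) ≤ -(W : ℤ) := by
        rw [winX_update n i hi]
        have h1 : (n i : ℤ) ≤ M := by exact_mod_cast hl i hiτ
        linarith
      obtain ⟨n', h1, h2, h3, h4⟩ := ih (Function.update n i (n i - 1)) hsum hn'
        (fun j hj => (hup j).trans (hl j hj)) hv'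
      exact ⟨n', fun j => (h1 j).trans (hup j), h2, h3, h4⟩

private theorem winX_neg {h e M Λ W : ℕ} {n : Fin h → ℕ} (τ : Fin 9 ↪ Fin h) {a : Fin 10 → ℕ}
    (he : e = dg a) (hτ : ∀ i, n (τ i) = mu a i) (hl : ∀ j, j ∉ Finset.univ.map τ → n j ≤ M)
    (hN : NwX M Λ a W) (h1 : vd e n ≤ -(W : ℤ)) (h2 : -((W : ℤ) + M) ≤ vd e n) :
    ∃ P₀ : Fin h → Fin 3 → ℂ, Module.finrank ℂ (curves e n P₀) ≤ 0 := by
  classical
  have hA : ∑ i, (n (τ i) + 1).choose 2 = ∑ i, (mu a i + 1).choose 2 :=
    Finset.sum_congr rfl fun i _ => by rw [hτ i]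
  have hvd := winX_vd (e := e) τ n
  rw [hA] at hvd
  have hmass := winX_massJ (u := 0) τ n
  rw [← hmass] at hvd
  rw [he] at hvd
  obtain ⟨p, x, y, hE⟩ := cert_neg hN (l := (Sum.elim n (fun _ => 1) : Fin h ⊕ Fin 0 → ℕ))
    (J := (Finset.univ.filter (fun l : Fin h => l ∉ Finset.univ.map τ)).map
        Function.Embedding.inl) (by
      intro j hj
      rw [Finset.mem_map] at hj
      obtain ⟨l, hl', rfl⟩ := hj
      simp only [Function.Embedding.inl_apply, Sum.elim_inl]
      exact hl l (Finset.mem_filter.1 hl').2) (by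
      rw [he] at h1
      rw [hvd] at h1
      omega) (by
      rw [he] at h2
      rw [hvd] at h2
      omega)
  have hm : mu a = fun i => n (τ i) := funext fun i => (hτ i).symm
  rw [hm, ← he] at hE
  have hall := winX_all (u := 0) τ
  have hemp : (Finset.univ : Finset (Fin 0)).map Function.Embedding.inr =
      (∅ : Finset (Fin h ⊕ Fin 0)) := by
    rw [Finset.univ_eq_empty, Finset.map_empty]
  rw [hemp, Finset.union_empty] at hall
  rw [hall] at hE
  exact exists_configT τ p x y hE

private theorem winX_pos {h e M Λ W : ℕ} {n : Fin h → ℕ} (τ : Fin 9 ↪ Fin h) {a : Fin 10 → ℕ}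
    (he : e = dg a) (hτ : ∀ i, n (τ i) = mu a i) (hl : ∀ j, j ∉ Finset.univ.map τ → n j ≤ M)
    (hN : NwX M Λ a W) (h1 : (W : ℤ) ≤ vd e n) (h2 : vd e n ≤ (W : ℤ) + M ^ 2) :
    General (fun P => (Module.finrank ℂ (curves e n P) : ℤ) = max (vd e n) 0) := by
  classical
  have hA : ∑ i, (n (τ i) + 1).choose 2 = ∑ i, (mu a i + 1).choose 2 :=
    Finset.sum_congr rfl fun i _ => by rw [hτ i]
  have hW : (0 : ℤ) ≤ W := Int.natCast_nonneg _
  obtain ⟨u, hu⟩ : ∃ u : ℕ, (u : ℤ) = vd e n := ⟨(vd e n).toNat, Int.toNat_of_nonneg (by linarith)⟩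
  have hvd := winX_vd (e := e) τ n
  rw [hA] at hvd
  have hmass := winX_massJ (u := u) τ n
  rw [← hmass] at hvd
  have hcard : ((Finset.univ : Finset (Fin u)).map
      (Function.Embedding.inr : Fin u ↪ Fin h ⊕ Fin u)).card = u := by
    rw [Finset.card_map, Finset.card_univ, Fintype.card_fin]
  obtain ⟨p, x, y, hE⟩ := cert_pos hN (l := (Sum.elim n (fun _ => 1) : Fin h ⊕ Fin u → ℕ))
    (J := (Finset.univ.filter (fun l : Fin h => l ∉ Finset.univ.map τ)).map
        Function.Embedding.inl)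
    (Z := (Finset.univ : Finset (Fin u)).map Function.Embedding.inr) (by
      rw [Finset.disjoint_left]
      intro i hi hi'
      rw [Finset.mem_map] at hi hi'
      obtain ⟨a, -, rfl⟩ := hi
      obtain ⟨b, -, hb⟩ := hi'
      simp at hb) (by
      intro j hj
      rw [Finset.mem_map] at hj
      obtain ⟨l, hl', rfl⟩ := hj
      simp only [Function.Embedding.inl_apply, Sum.elim_inl]
      exact hl l (Finset.mem_filter.1 hl').2) (by
      intro j hj
      rw [Finset.mem_map] at hj
      obtain ⟨l, _, rfl⟩ := hj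
      simp only [Function.Embedding.inr_apply, Sum.elim_inr]) (by
      rw [hcard, ← he]
      omega) (by
      rw [hcard]
      omega) (by
      rw [hcard]
      have h3 : (u : ℤ) ≤ (W : ℤ) + M ^ 2 := by linarith
      exact_mod_cast h3)
  have hm : mu a = fun i => n (τ i) := funext fun i => (hτ i).symm
  rw [hm, ← he, winX_all τ] at hE
  obtain ⟨P₀, hP₀⟩ := exists_configT τ p x y hE
  apply general_nonspecial_of_le P₀
  rw [← hu]
  refine le_trans ?_ (le_max_left _ _)
  exact_mod_cast hP₀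

theorem win_x {h e M Λ W : ℕ} {n : Fin h → ℕ} (τ : Fin 9 ↪ Fin h) {a : Fin 10 → ℕ}
    (he : e = dg a) (hτ : ∀ i, n (τ i) = mu a i) (hl : ∀ j, j ∉ Finset.univ.map τ → n j ≤ M)
    (hN : NwX M Λ a W) (hv : (W : ℤ) ≤ |vd e n|) :
    General (fun P => (Module.finrank ℂ (curves e n P) : ℤ) = max (vd e n) 0) := by
  have hW : (0 : ℤ) ≤ W := Int.natCast_nonneg _
  rcases le_abs.1 hv with hv | hv
  · obtain ⟨k, hk1, hk2⟩ := upper_u hN.hM hv
    refine app_u (k := k) (c := M) n (by linarith) ?_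
    refine winX_pos (τ.trans (Fin.castAddEmb k)) he ?_ ?_ hN hk1 hk2
    · intro i
      rw [← hτ i]
      exact Fin.append_left n (fun _ : Fin k => M) (τ i)
    · intro j hj
      induction j using Fin.addCases with
      | left j =>
        rw [Fin.append_left]
        refine hl j fun hj' => hj ?_
        rw [Finset.mem_map] at hj' ⊢
        obtain ⟨i, hi, rfl⟩ := hj'
        exact ⟨i, hi, rfl⟩
      | right j =>
        rw [Fin.append_right]
  · have hv' : vd e n ≤ -(W : ℤ) := by linarith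
    obtain ⟨n', h1, h2, h3, h4⟩ := winX_lower (M := M) τ he _ n rfl hτ hl hv'
    obtain ⟨P₀, hP₀⟩ := winX_neg τ he h2 (fun j hj => (h1 j).trans (hl j hj)) hN h3 h4
    apply general_nonspecial_of_le P₀
    have h5 := winX_anti (e := e) h1 P₀
    refine le_trans ?_ (le_max_right _ _)
    exact_mod_cast h5.trans hP₀

end Pool.Agent.Lib.MP_6b2d39_agVx
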