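import Pool.Agent.Lib.MP_6b2d39_agVx.BoxX

/-!
Numbers for the window with a free parameter.

PROOF. `l = log (A / M ^ 2 + 2)`, `S = (Λ M ^ 2 / A) ^ 2 + M + (A / Λ) ^ (3 / 4)`, `W1 = C1 S l ^ 3`, `C = 3 C1`, `C1` large, `W = ⌊W1⌋`; `3 W1 < 15 M ^ 2`
gives `W ≤ 5 M ^ 2` and (`l ≥ log 2`) `C1 (Λ M ^ 2 / A) ^ 2 l ^ 3 < 5 M ^ 2`, so `A ≥ 10 ^ 9 Λ M l` hence `A ≥ M ^ 2` (so `A / M ^ 2 ≥ 1`),
`A ≥ 1760 Λ M X` for `X ≤ 200 l`. Let `8 ≤ Q`, `128 M Q ≤ z`, `A ≤ 22 Λ z`, `Λ z ≤ 3 A`; `2 * M ^ 2 / z ≤ 44 Λ M ^ 2 / A`; `80 M X ≤ z` from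
`1760 Λ M X ≤ A ≤ 22 Λ z`.
(B) `M ^ 17 ≤ A ^ 8`: `log M ≤ 8 l`, `X = ⌈13 log (3 M) + 16⌉ ≤ 200 l`; `AbV M z Q X W`: `hW3`: `min z (M ^ 2) ≤ z ≤ 3 A / Λ`.
(A) `A ^ 8 < M ^ 17`: `X = ⌈13 (l + log 6) + 16⌉ ≤ 200 l`, `Y = ⌊√(W / (3 X))⌋`, so `3 X Y ^ 2 ≤ W` and `W ≤ 12 X Y ^ 2` (`W ≥ 12 X`);
`S ≥ (400 M ^ 3 / A) ^ 2`, so `(M / Y) ^ 2 ≤ 12 X M ^ 2 / W ≤ (A / M ^ 2) ^ 2` and `log (6 M / Y) ≤ log 6 + l`; `hy1`: `W ≥ 12 X (120000 (…) X) ^ 2`;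
`hy2`, `hY3`: `A ^ 2 ≤ M ^ 5` (from `A ^ 16 ≤ M ^ 34`) and `A ^ 3 ≤ M ^ 7` (from `A ^ 24 ≤ M ^ 51`): `M ≤ M ^ 6 / A ^ 2`, `z ≤ A / M ≤ M ^ 6 / A ^ 2`.
-/

set_option autoImplicit false

namespace Pool.Agent.Lib.MP_6b2d39_agVx

open Pool.Agent.Lib.MP_6b2d39_agUv Pool.Agent.Lib.MP_6b2d39_agUp

private lemma nx_log3 : 1 ≤ Real.log 3 := by
  rw [Real.le_log_iff_exp_le (by norm_num)]
  have := Real.exp_one_lt_d9
  linarith

private lemma nx_log3' : Real.log 3 ≤ 2 := by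
  have := Real.log_le_sub_one_of_pos (show (0 : ℝ) < 3 by norm_num)
  linarith

private lemma nx_log6 : Real.log 6 ≤ 3 := by
  have h1 : Real.log 6 = Real.log 3 + Real.log 2 := by
    rw [← Real.log_mul (by norm_num) (by norm_num)]; norm_num
  have h2 := nx_log3'
  have h3 := Real.log_two_lt_d9
  linarith

private lemma nx_log_l {M A : ℕ} (hM : 1 ≤ M) (hA : 1 ≤ A) :
    Real.log A - 2 * Real.log M ≤ Real.log ((A : ℝ) / M ^ 2 + 2) := by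
  have hM1 : (1 : ℝ) ≤ M := by exact_mod_cast hM
  have hA1 : (1 : ℝ) ≤ A := by exact_mod_cast hA
  have h1 : Real.log ((A : ℝ) / M ^ 2) ≤ Real.log ((A : ℝ) / M ^ 2 + 2) :=
    Real.log_le_log (by positivity) (by linarith)
  rw [Real.log_div (by positivity) (by positivity), Real.log_pow] at h1
  push_cast at h1
  linarith

/-- the number `X` in the case `M ^ 17 ≤ A ^ 8` -/
private lemma nx_XB {M A : ℕ} (hM : 1 ≤ M) (hA : 1 ≤ A) (h : M ^ 17 ≤ A ^ 8)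
    (hl : 1 ≤ Real.log ((A : ℝ) / M ^ 2 + 2)) :
    ((⌈13 * Real.log (3 * M) + 16⌉₊ : ℕ) : ℝ) ≤ 200 * Real.log ((A : ℝ) / M ^ 2 + 2) := by
  have hM1 : (1 : ℝ) ≤ M := by exact_mod_cast hM
  have hA1 : (1 : ℝ) ≤ A := by exact_mod_cast hA
  have h1 := nx_log_l hM hA
  have h2 : (M : ℝ) ^ 17 ≤ (A : ℝ) ^ 8 := by exact_mod_cast h
  have h3 : 17 * Real.log M ≤ 8 * Real.log A := by
    have := Real.log_le_log (by positivity) h2
    rw [Real.log_pow, Real.log_pow] at this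
    push_cast at this
    exact this
  have h4 : Real.log (3 * (M : ℝ)) = Real.log 3 + Real.log M :=
    Real.log_mul (by norm_num) (by positivity)
  have h5 := nx_log3'
  have h0 : 0 ≤ Real.log (3 * (M : ℝ)) := Real.log_nonneg (by linarith)
  have h6 := Nat.ceil_lt_add_one (show 0 ≤ 13 * Real.log (3 * (M : ℝ)) + 16 by linarith)
  rw [h4] at h6 ⊢
  linarith

/-- `10 ^ 9 Λ M l ≤ A` -/
private lemma nx_A {M A Λ l u : ℝ} (hA : 0 < A) (hu : u * A = Λ * M ^ 2)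
    (hM : 1 ≤ M) (hl : 69 / 100 ≤ l) (hu0 : 0 ≤ u)
    (h : 10 ^ 30 * u ^ 2 * l ^ 3 < 5 * M ^ 2) : 10 ^ 9 * Λ * M * l ≤ A := by
  by_contra hcon
  push Not at hcon
  have h1 : M * A < 10 ^ 9 * u * l * A := by
    have h2 : M * A < M * (10 ^ 9 * Λ * M * l) := mul_lt_mul_of_pos_left hcon (by linarith)
    have h3 : M * (10 ^ 9 * Λ * M * l) = 10 ^ 9 * l * (Λ * M ^ 2) := by ring
    rw [h3, ← hu] at h2
    linarith
  have h4 : M < 10 ^ 9 * u * l := lt_of_mul_lt_mul_right h1 hA.le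
  have h5 : M ^ 2 < (10 ^ 9 * u * l) ^ 2 := pow_lt_pow_left₀ h4 (by linarith) (by norm_num)
  have h6 : (10 ^ 9 * u * l) ^ 2 * (69 / 100) ≤ (10 ^ 9 * u * l) ^ 2 * l :=
    mul_le_mul_of_nonneg_left hl (by positivity)
  have h7 : 10 ^ 30 * u ^ 2 * l ^ 3 = 10 ^ 12 * ((10 ^ 9 * u * l) ^ 2 * l) := by ring
  rw [h7] at h
  nlinarith

/-- the square term -/
private lemma nx_sq {M A Λ : ℝ} {z m : ℕ} (hA : 0 < A) (hz : A ≤ 22 * Λ * z)
    (hm : (m : ℝ) * z ≤ 2 * M ^ 2) (hz0 : 1 ≤ z) (hΛ : 0 < Λ) {u : ℝ} (hu : u * A = Λ * M ^ 2) :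
    ((m : ℝ) + 2) ^ 2 ≤ 4000 * u ^ 2 + 8 := by
  have hz1 : (1 : ℝ) ≤ z := by exact_mod_cast hz0
  have hm0 : (0 : ℝ) ≤ m := Nat.cast_nonneg m
  have h1 : (m : ℝ) * A ≤ 44 * u * A := by
    calc (m : ℝ) * A ≤ m * (22 * Λ * z) := mul_le_mul_of_nonneg_left hz hm0
      _ = 22 * Λ * (m * z) := by ring
      _ ≤ 22 * Λ * (2 * M ^ 2) := mul_le_mul_of_nonneg_left hm (by positivity)
      _ = 44 * (Λ * M ^ 2) := by ring
      _ = 44 * u * A := by rw [← hu]; ring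
  have h2 : (m : ℝ) ≤ 44 * u := le_of_mul_le_mul_right h1 hA
  nlinarith [sq_nonneg ((44 : ℝ) * u - 2), mul_nonneg hm0 hm0]

/-- `W ≤ 12 X Y ^ 2` for `Y = √ (W / (3 X))` -/
private lemma nx_Y {X W Y : ℕ} (hX : 1 ≤ X) (hY : Y = Nat.sqrt (W / (3 * X))) (hW : 12 * X ≤ W) :
    3 * X * Y ^ 2 ≤ W ∧ W ≤ 12 * X * Y ^ 2 ∧ 1 ≤ Y := by
  have h1 : Y ^ 2 ≤ W / (3 * X) := by rw [hY]; exact Nat.sqrt_le' _
  have h2 : W / (3 * X) < (Y + 1) ^ 2 := by rw [hY]; exact Nat.lt_succ_sqrt' _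
  have h3 : 1 ≤ Y := by
    rw [hY, Nat.le_sqrt']
    rw [Nat.le_div_iff_mul_le (by omega)]
    omega
  refine ⟨?_, ?_, h3⟩
  · calc 3 * X * Y ^ 2 ≤ 3 * X * (W / (3 * X)) := Nat.mul_le_mul_left _ h1
      _ ≤ W := Nat.mul_div_le _ _
  · have h4 : W < 3 * X * (W / (3 * X) + 1) := by
      have := Nat.lt_mul_div_succ W (show 0 < 3 * X by omega)
      simpa using this
    have h5 : 3 * X * (W / (3 * X) + 1) ≤ 3 * X * (Y + 1) ^ 2 := Nat.mul_le_mul_left _ h2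
    have h6 : (Y + 1) ^ 2 ≤ 4 * Y ^ 2 := by nlinarith
    have h7 : 3 * X * (Y + 1) ^ 2 ≤ 3 * X * (4 * Y ^ 2) := Nat.mul_le_mul_left _ h6
    calc W ≤ 3 * X * (4 * Y ^ 2) := by omega
      _ = 12 * X * Y ^ 2 := by ring

theorem num_x : ∃ C : ℝ, 1 ≤ C ∧ ∀ M A Λ : ℕ, 1 ≤ M → 1 ≤ A → 400 * M ≤ Λ →
    C * (((Λ : ℝ) * M ^ 2 / A) ^ 2 + M + ((A : ℝ) / Λ) ^ (3 / 4 : ℝ)) *
      Real.log ((A : ℝ) / M ^ 2 + 2) ^ 3 < 15 * (M : ℝ) ^ 2 →
    ∃ W : ℕ, (W : ℝ) ≤ C * (((Λ : ℝ) * M ^ 2 / A) ^ 2 + M + ((A : ℝ) / Λ) ^ (3 / 4 : ℝ)) *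
        Real.log ((A : ℝ) / M ^ 2 + 2) ^ 3 ∧
      ∀ z Q : ℕ, 8 ≤ Q → 128 * M * Q ≤ z → A ≤ 22 * Λ * z → Λ * z ≤ 3 * A →
        BoxX M z Q W := by
  refine ⟨3 * 10 ^ 30, by norm_num, ?_⟩
  intro M A Λ hM hA hΛ hlt
  have hM1 : (1 : ℝ) ≤ M := by exact_mod_cast hM
  have hA1 : (1 : ℝ) ≤ A := by exact_mod_cast hA
  have hΛ1 : 400 * (M : ℝ) ≤ Λ := by exact_mod_cast hΛ
  have hΛ0 : (0 : ℝ) < Λ := by linarith
  have hA0 : (0 : ℝ) < A := by linarith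
  obtain ⟨l, hld⟩ : ∃ l : ℝ, l = Real.log ((A : ℝ) / M ^ 2 + 2) := ⟨_, rfl⟩
  obtain ⟨y, hyd⟩ : ∃ y : ℝ, y = ((A : ℝ) / Λ) ^ (3 / 4 : ℝ) := ⟨_, rfl⟩
  obtain ⟨u, hud⟩ : ∃ u : ℝ, u = (Λ : ℝ) * M ^ 2 / A := ⟨_, rfl⟩
  have hy0 : 0 ≤ y := by rw [hyd]; exact Real.rpow_nonneg (by positivity) _
  have hu0 : 0 ≤ u := by rw [hud]; positivity
  have huA : u * A = (Λ : ℝ) * M ^ 2 := by rw [hud]; field_simp
  rw [← hld, ← hyd, ← hud] at hlt ⊢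
  obtain ⟨S, hSd⟩ : ∃ S : ℝ, S = u ^ 2 + M + y := ⟨_, rfl⟩
  rw [← hSd] at hlt ⊢
  have hu2 : 0 ≤ u ^ 2 := sq_nonneg u
  have hSu : u ^ 2 ≤ S := by rw [hSd]; linarith
  have hSM : (M : ℝ) ≤ S := by rw [hSd]; linarith
  have hSy : y ≤ S := by rw [hSd]; linarith
  have hS1 : 1 ≤ S := hM1.trans hSM
  have hl2 : 69 / 100 ≤ l := by
    have h1 : Real.log 2 ≤ l := by
      rw [hld]
      refine Real.log_le_log (by norm_num) ?_
      have : 0 ≤ (A : ℝ) / M ^ 2 := by positivity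
      linarith
    have := Real.log_two_gt_d9
    linarith
  have hl0 : 0 ≤ l := by linarith
  have hl30 : 0 ≤ l ^ 3 := by positivity
  obtain ⟨W1, hWd⟩ : ∃ W1 : ℝ, W1 = 10 ^ 30 * (S * l ^ 3) := ⟨_, rfl⟩
  have hC : 3 * 10 ^ 30 * S * l ^ 3 = 3 * W1 := by rw [hWd]; ring
  rw [hC] at hlt ⊢
  have hSl0 : 0 ≤ S * l ^ 3 := by positivity
  have hW10 : 0 ≤ W1 := by rw [hWd]; positivity
  have hK : ∀ k : ℝ, k ≤ 10 ^ 30 → k * (S * l ^ 3) ≤ W1 := fun k hk => by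
    rw [hWd]; exact mul_le_mul_of_nonneg_right hk hSl0
  have hW15 : W1 < 5 * (M : ℝ) ^ 2 := by linarith
  have hAb : 10 ^ 9 * (Λ : ℝ) * M * l ≤ A := by
    refine nx_A hA0 huA hM1 hl2 hu0 ?_
    refine lt_of_le_of_lt ?_ hW15
    have h1 : u ^ 2 * l ^ 3 ≤ S * l ^ 3 := mul_le_mul_of_nonneg_right hSu hl30
    have h2 : 10 ^ 30 * (u ^ 2 * l ^ 3) ≤ 10 ^ 30 * (S * l ^ 3) :=
      mul_le_mul_of_nonneg_left h1 (by norm_num)
    have h3 : 10 ^ 30 * u ^ 2 * l ^ 3 = 10 ^ 30 * (u ^ 2 * l ^ 3) := by ring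
    rw [h3, hWd]
    exact h2
  have hAM : (M : ℝ) ^ 2 ≤ A := by
    have h1 : (M : ℝ) * M ≤ Λ * M := mul_le_mul_of_nonneg_right (by linarith) (by linarith)
    have h2 : (Λ : ℝ) * M * (69 / 100) ≤ Λ * M * l := mul_le_mul_of_nonneg_left hl2 (by positivity)
    have h3 : (M : ℝ) ^ 2 = M * M := by ring
    have h4 : 10 ^ 9 * (Λ : ℝ) * M * l = 10 ^ 9 * (Λ * M * l) := by ring
    have h5 : 0 ≤ (Λ : ℝ) * M := by positivity
    rw [h4] at hAb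
    rw [h3]
    linarith
  have hl1 : 1 ≤ l := by
    have h1 : Real.log 3 ≤ l := by
      rw [hld]
      refine Real.log_le_log (by norm_num) ?_
      have : 1 ≤ (A : ℝ) / M ^ 2 := by
        rw [le_div_iff₀ (by positivity)]; linarith
      linarith
    exact nx_log3.trans h1
  have hll3 : l ≤ l ^ 3 := by
    calc l = l ^ 1 := (pow_one l).symm
      _ ≤ l ^ 3 := pow_le_pow_right₀ hl1 (by norm_num)
  have hl31 : 1 ≤ l ^ 3 := one_le_pow₀ hl1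
  have hSSl : S ≤ S * l ^ 3 := le_mul_of_one_le_right (by linarith) hl31
  have hSl1 : 1 ≤ S * l ^ 3 := hS1.trans hSSl
  have hSll : S * l ≤ S * l ^ 3 := mul_le_mul_of_nonneg_left hll3 (by linarith)
  have hWf := Nat.sub_one_lt_floor W1
  have hWhalf : W1 ≤ 2 * (⌊W1⌋₊ : ℝ) := by
    have h1 := hK 2 (by norm_num)
    linarith
  have hWle : (⌊W1⌋₊ : ℝ) ≤ W1 := Nat.floor_le hW10
  have hW4 : ⌊W1⌋₊ ≤ 7 * M ^ 2 := by
    have h1 : (⌊W1⌋₊ : ℝ) ≤ 7 * (M : ℝ) ^ 2 := by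
      have : 0 ≤ (M : ℝ) ^ 2 := by positivity
      linarith
    exact_mod_cast h1
  refine ⟨⌊W1⌋₊, by linarith, ?_⟩
  intro z Q hQ hz hAz hzA
  have hAz' : (A : ℝ) ≤ 22 * Λ * z := by exact_mod_cast hAz
  have hzA' : (Λ : ℝ) * z ≤ 3 * A := by exact_mod_cast hzA
  have hz1 : 1 ≤ z := by
    have : 1 ≤ 128 * M * Q := Nat.mul_pos (by omega) (by omega)
    omega
  have hz1' : (1 : ℝ) ≤ z := by exact_mod_cast hz1
  have hmz : ((2 * M ^ 2 / z : ℕ) : ℝ) * z ≤ 2 * (M : ℝ) ^ 2 := by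
    have := Nat.div_mul_le_self (2 * M ^ 2) z
    exact_mod_cast this
  have hsq := nx_sq hA0 hAz' hmz hz1 hΛ0 huA
  have hsq' : (((2 * M ^ 2 / z : ℕ) : ℝ) + 2) ^ 2 ≤ 4008 * S := by linarith
  have hzX : ∀ X : ℕ, (X : ℝ) ≤ 200 * l → 80 * M * X ≤ z := by
    intro X hX
    have h1 : (22 * (Λ : ℝ)) * (80 * M * X) ≤ (22 * Λ) * z := by
      calc (22 * (Λ : ℝ)) * (80 * M * X) = 1760 * Λ * M * X := by ring
        _ ≤ 1760 * Λ * M * (200 * l) := mul_le_mul_of_nonneg_left hX (by positivity)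
        _ ≤ 10 ^ 9 * (Λ : ℝ) * M * l := by
            have h3 : 0 ≤ (Λ : ℝ) * M * l := by positivity
            have h4 : 1760 * (Λ : ℝ) * M * (200 * l) = 352000 * (Λ * M * l) := by ring
            have h5 : 10 ^ 9 * (Λ : ℝ) * M * l = 10 ^ 9 * (Λ * M * l) := by ring
            rw [h4, h5]
            exact mul_le_mul_of_nonneg_right (by norm_num) h3
        _ ≤ A := hAb
        _ ≤ 22 * Λ * z := hAz'
    have h2 : (80 : ℝ) * M * X ≤ z := le_of_mul_le_mul_left h1 (by positivity)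
    exact_mod_cast h2
  have hX3 : ∀ X : ℕ, (X : ℝ) ≤ 200 * l → (X : ℝ) ^ 3 ≤ 8 * 10 ^ 6 * l ^ 3 := by
    intro X hX
    have := pow_le_pow_left₀ (Nat.cast_nonneg X) hX 3
    calc (X : ℝ) ^ 3 ≤ (200 * l) ^ 3 := this
      _ = 8 * 10 ^ 6 * l ^ 3 := by ring
  rcases le_or_gt (M ^ 17) (A ^ 8) with hc | hc
  · -- many multiples
    left
    have hXl := nx_XB hM hA hc (by rw [← hld]; exact hl1)
    rw [← hld] at hXl
    obtain ⟨X, hXd⟩ : ∃ X : ℕ, X = ⌈13 * Real.log (3 * M) + 16⌉₊ := ⟨_, rfl⟩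
    rw [← hXd] at hXl
    have hX0 : (0 : ℝ) ≤ X := Nat.cast_nonneg X
    refine ⟨X, hM, hQ, hz, ?_, hzX X hXl, ?_, ?_, ?_, hW4⟩
    · rw [hXd]; exact Nat.le_ceil _
    · apply Nat.le_floor
      have e1 : ((10 ^ 14 * (2 * M ^ 2 / z + 2) ^ 2 * X ^ 3 : ℕ) : ℝ) =
          (10 : ℝ) ^ 14 * (((2 * M ^ 2 / z : ℕ) : ℝ) + 2) ^ 2 * (X : ℝ) ^ 3 := by
        push_cast; ring
      rw [e1]
      calc (10 : ℝ) ^ 14 * (((2 * M ^ 2 / z : ℕ) : ℝ) + 2) ^ 2 * (X : ℝ) ^ 3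
          ≤ 10 ^ 14 * (4008 * S) * (8 * 10 ^ 6 * l ^ 3) := by
            refine mul_le_mul ?_ (hX3 X hXl) (by positivity) (by positivity)
            exact mul_le_mul_of_nonneg_left hsq' (by positivity)
        _ = (32064 * 10 ^ 20) * (S * l ^ 3) := by ring
        _ ≤ 10 ^ 30 * (S * l ^ 3) := mul_le_mul_of_nonneg_right (by norm_num) (by linarith)
        _ = W1 := by rw [hWd]
    · apply Nat.le_floor
      have e1 : ((10 ^ 8 * M * X : ℕ) : ℝ) = (10 : ℝ) ^ 8 * M * X := by push_cast; ring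
      rw [e1]
      calc (10 : ℝ) ^ 8 * M * X ≤ 10 ^ 8 * S * (200 * l) := by
            refine mul_le_mul ?_ hXl hX0 (by positivity)
            exact mul_le_mul_of_nonneg_left hSM (by positivity)
        _ = (200 * 10 ^ 8) * (S * l) := by ring
        _ ≤ (200 * 10 ^ 8) * (S * l ^ 3) := mul_le_mul_of_nonneg_left hSll (by positivity)
        _ ≤ 10 ^ 30 * (S * l ^ 3) := mul_le_mul_of_nonneg_right (by norm_num) (by linarith)
        _ = W1 := by rw [hWd]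
    · have h1 : (10 : ℝ) ^ 6 * y ≤ (⌊W1⌋₊ : ℝ) := by
        have h3 := hK (2 * 10 ^ 6) (by norm_num)
        have h4 : y ≤ S * l ^ 3 := hSy.trans hSSl
        linarith
      have h4 : (z : ℝ) ≤ 3 * (A / Λ) := by
        have h5 : (z : ℝ) ≤ 3 * A / Λ := by
          rw [le_div_iff₀ hΛ0]; linarith
        calc (z : ℝ) ≤ 3 * A / Λ := h5
          _ = 3 * (A / Λ) := by ring
      have h5 : y ^ 4 = ((A : ℝ) / Λ) ^ 3 := by
        rw [hyd, ← Real.rpow_natCast, ← Real.rpow_mul (by positivity)]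
        norm_num
      have h6 : ((min z (M ^ 2) : ℕ) : ℝ) ≤ 3 * (A / Λ) := by
        refine le_trans ?_ h4
        exact_mod_cast min_le_left _ _
      have h7 : (10 : ℝ) ^ 21 * ((min z (M ^ 2) : ℕ) : ℝ) ^ 3 ≤ (⌊W1⌋₊ : ℝ) ^ 4 := by
        calc (10 : ℝ) ^ 21 * ((min z (M ^ 2) : ℕ) : ℝ) ^ 3
            ≤ 10 ^ 21 * (3 * ((A : ℝ) / Λ)) ^ 3 :=
              mul_le_mul_of_nonneg_left (pow_le_pow_left₀ (Nat.cast_nonneg _) h6 3)
                (by positivity)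
          _ = 27 * 10 ^ 21 * ((A : ℝ) / Λ) ^ 3 := by ring
          _ ≤ 10 ^ 24 * ((A : ℝ) / Λ) ^ 3 :=
              mul_le_mul_of_nonneg_right (by norm_num) (by positivity)
          _ = (10 ^ 6 * y) ^ 4 := by rw [← h5]; ring
          _ ≤ (⌊W1⌋₊ : ℝ) ^ 4 := pow_le_pow_left₀ (by positivity) h1 4
      exact_mod_cast h7
  · -- few multiples
    right
    obtain ⟨X, hXd⟩ : ∃ X : ℕ, X = ⌈13 * (l + Real.log 6) + 16⌉₊ := ⟨_, rfl⟩
    have hlog6 := nx_log6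
    have hlog60 : 0 ≤ Real.log 6 := Real.log_nonneg (by norm_num)
    have hXge : 13 * (l + Real.log 6) + 16 ≤ X := by rw [hXd]; exact Nat.le_ceil _
    have hXl : (X : ℝ) ≤ 200 * l := by
      have := Nat.ceil_lt_add_one (show 0 ≤ 13 * (l + Real.log 6) + 16 by linarith)
      rw [← hXd] at this
      linarith
    have hX16 : 16 ≤ X := by
      have : (16 : ℝ) ≤ X := by linarith
      exact_mod_cast this
    have hX0 : (0 : ℝ) ≤ X := Nat.cast_nonneg X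
    obtain ⟨W, hWW⟩ : ∃ W : ℕ, W = ⌊W1⌋₊ := ⟨_, rfl⟩
    rw [← hWW] at hW4 hWhalf hWle ⊢
    obtain ⟨Y, hYd⟩ : ∃ Y : ℕ, Y = Nat.sqrt (W / (3 * X)) := ⟨_, rfl⟩
    have hXS : (X : ℝ) * S ≤ 200 * (S * l ^ 3) := by
      calc (X : ℝ) * S ≤ (200 * l) * S := mul_le_mul_of_nonneg_right hXl (by linarith)
        _ = 200 * (S * l) := by ring
        _ ≤ 200 * (S * l ^ 3) := mul_le_mul_of_nonneg_left hSll (by norm_num)
    have hW12 : 12 * X ≤ W := by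
      have h1 : (12 : ℝ) * X ≤ W := by
        have h2 : (X : ℝ) ≤ X * S := le_mul_of_one_le_right hX0 hS1
        have h3 := hK 4800 (by norm_num)
        linarith
      exact_mod_cast h1
    obtain ⟨hY1, hY2, hY0⟩ := nx_Y (by omega) hYd hW12
    have hY0' : (1 : ℝ) ≤ Y := by exact_mod_cast hY0
    have hY2' : (W : ℝ) ≤ 12 * X * Y ^ 2 := by exact_mod_cast hY2
    have hu400 : 400 * (M : ℝ) ^ 3 ≤ u * A := by
      rw [huA]
      have h1 : 400 * (M : ℝ) ^ 3 = (400 * M) * (M : ℝ) ^ 2 := by ring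
      rw [h1]
      exact mul_le_mul_of_nonneg_right hΛ1 (by positivity)
    have hXpos : (0 : ℝ) < X := by
      have : (16 : ℝ) ≤ X := by exact_mod_cast hX16
      linarith
    have hWX : 12 * X * (10 ^ 6 * S) ≤ (W : ℝ) := by
      have h3 := hK (12 * 10 ^ 6 * 400) (by norm_num)
      have h4 : 12 * X * (10 ^ 6 * S) = 12 * 10 ^ 6 * (X * S) := by ring
      have h5 : 12 * 10 ^ 6 * ((X : ℝ) * S) ≤ 12 * 10 ^ 6 * (200 * (S * l ^ 3)) :=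
        mul_le_mul_of_nonneg_left hXS (by norm_num)
      linarith
    have hSY : 10 ^ 6 * S ≤ (Y : ℝ) ^ 2 := by
      have h1 : 12 * X * (10 ^ 6 * S) ≤ 12 * X * (Y : ℝ) ^ 2 := hWX.trans hY2'
      exact le_of_mul_le_mul_left h1 (by positivity)
    have hSA : (400 * (M : ℝ) ^ 3) ^ 2 ≤ S * A ^ 2 := by
      calc (400 * (M : ℝ) ^ 3) ^ 2 ≤ (u * A) ^ 2 := pow_le_pow_left₀ (by positivity) hu400 2
        _ = u ^ 2 * A ^ 2 := by ring
        _ ≤ S * A ^ 2 := mul_le_mul_of_nonneg_right hSu (by positivity)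
    have hMY : (M : ℝ) / Y ≤ A / M ^ 2 := by
      rw [div_le_div_iff₀ (by linarith) (by positivity)]
      have h1 : (M : ℝ) * M ^ 2 = M ^ 3 := by ring
      rw [h1, ← pow_le_pow_iff_left₀ (by positivity) (by positivity) (two_ne_zero)]
      have h2 : ((M : ℝ) ^ 3) ^ 2 ≤ (400 * (M : ℝ) ^ 3) ^ 2 :=
        pow_le_pow_left₀ (by positivity)
          (by linarith [show (0 : ℝ) ≤ (M : ℝ) ^ 3 by positivity]) 2
      have h3 : S * (A : ℝ) ^ 2 ≤ Y ^ 2 * A ^ 2 :=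
        mul_le_mul_of_nonneg_right (by linarith) (by positivity)
      calc ((M : ℝ) ^ 3) ^ 2 ≤ S * A ^ 2 := h2.trans hSA
        _ ≤ Y ^ 2 * A ^ 2 := h3
        _ = (A * Y) ^ 2 := by ring
    refine ⟨X, Y, hM, hQ, hz, hX16, ?_, hzX X hXl, ?_, ?_, hY1, ?_, ?_, hW4⟩
    · have h1 : Real.log (6 * M / Y) ≤ Real.log 6 + l := by
        have h2 : 6 * (M : ℝ) / Y = 6 * (M / Y) := by ring
        have h3 : 0 < (M : ℝ) / Y := by positivity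
        rw [h2, Real.log_mul (by norm_num) h3.ne', hld]
        have h4 := Real.log_le_log h3 (show (M : ℝ) / Y ≤ A / M ^ 2 + 2 by linarith)
        linarith
      linarith
    · -- `hy1`
      have h1 : 12 * X * (120000 * (((2 * M ^ 2 / z : ℕ) : ℝ) + 2) * X) ^ 2 ≤ (W : ℝ) := by
        have h2 : 12 * X * (120000 * (((2 * M ^ 2 / z : ℕ) : ℝ) + 2) * X) ^ 2 =
            172800000000 * ((((2 * M ^ 2 / z : ℕ) : ℝ) + 2) ^ 2 * (X : ℝ) ^ 3) := by ring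
        have h3 : (((2 * M ^ 2 / z : ℕ) : ℝ) + 2) ^ 2 * (X : ℝ) ^ 3 ≤
            4008 * S * (8 * 10 ^ 6 * l ^ 3) :=
          mul_le_mul hsq' (hX3 X hXl) (by positivity) (by positivity)
        have h4 := hK (172800000000 * 4008 * (8 * 10 ^ 6) * 2) (by norm_num)
        have h5 : 172800000000 * 4008 * (8 * 10 ^ 6) * 2 * (S * l ^ 3) =
            2 * (172800000000 * (4008 * S * (8 * 10 ^ 6 * l ^ 3))) := by ring
        rw [h5] at h4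
        rw [h2]
        linarith
      have h2 : 12 * X * (120000 * (((2 * M ^ 2 / z : ℕ) : ℝ) + 2) * X) ^ 2 ≤
          12 * X * (Y : ℝ) ^ 2 := h1.trans hY2'
      have h3 := le_of_mul_le_mul_left h2 (by positivity)
      rw [pow_le_pow_iff_left₀ (by positivity) (by positivity) (two_ne_zero)] at h3
      exact_mod_cast h3
    · -- `hy2`
      have h1 : 280000 * (M : ℝ) ≤ Y ^ 2 := by linarith
      exact_mod_cast h1
    · have hMW : M ≤ W := by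
        have h1 : (M : ℝ) ≤ W := by
          have := hK 2 (by norm_num)
          linarith
        exact_mod_cast h1
      have h2 : 12 * X * Y ^ 2 + 12 * X * Y ^ 2 = 24 * X * Y ^ 2 := by ring
      omega
    · -- `hY3`
      have hA3 : A ^ 3 ≤ M ^ 7 := by
        rw [← Nat.pow_le_pow_iff_left (n := 8) (by norm_num)]
        calc (A ^ 3) ^ 8 = (A ^ 8) ^ 3 := by ring
          _ ≤ (M ^ 17) ^ 3 := Nat.pow_le_pow_left hc.le 3
          _ = M ^ 51 := by ring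
          _ ≤ M ^ 56 := Nat.pow_le_pow_right (by omega) (by norm_num)
          _ = (M ^ 7) ^ 8 := by ring
      have hA3' : (A : ℝ) ^ 3 ≤ (M : ℝ) ^ 7 := by exact_mod_cast hA3
      have h1 : 400 * (M : ℝ) * z ≤ 3 * A := by
        have : 400 * (M : ℝ) * z ≤ Λ * z := mul_le_mul_of_nonneg_right hΛ1 (by linarith)
        linarith
      have h2 : (52 * (z : ℝ)) * (M * A ^ 2) ≤ S * (M * A ^ 2) := by
        have h3 : (400 * (M : ℝ) * z) * A ^ 2 ≤ 3 * A * A ^ 2 :=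
          mul_le_mul_of_nonneg_right h1 (by positivity)
        have h4 : 3 * (A : ℝ) * A ^ 2 ≤ 3 * (M : ℝ) ^ 7 := by
          have h8 : 3 * (A : ℝ) * A ^ 2 = 3 * (A : ℝ) ^ 3 := by ring
          rw [h8]
          linarith
        have h5 : (M : ℝ) * (400 * (M : ℝ) ^ 3) ^ 2 ≤ M * (S * A ^ 2) :=
          mul_le_mul_of_nonneg_left hSA (by linarith)
        have h6 : (M : ℝ) * (400 * (M : ℝ) ^ 3) ^ 2 = 160000 * M ^ 7 := by ring
        have h7 : 0 ≤ (M : ℝ) ^ 7 := by positivity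
        have h9 : (52 * (z : ℝ)) * (M * A ^ 2) = 52 / 400 * ((400 * (M : ℝ) * z) * A ^ 2) := by ring
        have h10 : S * ((M : ℝ) * A ^ 2) = M * (S * A ^ 2) := by ring
        rw [h9, h10]
        rw [h6] at h5
        linarith
      have h3 : 52 * (z : ℝ) ≤ S := le_of_mul_le_mul_right h2 (by positivity)
      have h4 : 52 * z ≤ W := by
        have h5 : 52 * (z : ℝ) ≤ W := by
          have := hK 2 (by norm_num)
          linarith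
        exact_mod_cast h5
      calc 52 * z ≤ 1 * W := by omega
        _ ≤ 3 * X * W := Nat.mul_le_mul_right _ (by omega)

end Pool.Agent.Lib.MP_6b2d39_agVx
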