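import Pool.Agent.Lib.MP_6b2d39_agVx.MainX

/-!
The description of the possible counterexamples: all clauses for the same reduced system.
-/

set_option autoImplicit false

namespace Pool.Agent.Lib.MP_6b2d39_agVx

open Pool.Agent.Lib.MP_6b2d39_ag Pool.Agent.Lib.MP_6b2d39_agWin Pool.Agent.Lib.MP_6b2d39_agCr
  Pool.Agent.Lib.MP_6b2d39_agHal Pool.Agent.Lib.MP_6b2d39_agNw Pool.Agent.Lib.MP_6b2d39_agRef

theorem all_x : ∃ C : ℝ, ∀ (h d : ℕ) (m : Fin h → ℕ), 3 ≤ h →
    General (fun P => IsSpecial d m P ↔ IsMinusOneSpecial d m P) ∨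
      ∃ (e : ℕ) (n : Fin h → ℕ), Relation.ReflTransGen CremonaStep (d, m) (e, n) ∧
        (∀ i, n i ≤ m i) ∧ Reduced e n ∧ General (fun P => IsSpecial e n P) ∧
        (∀ μ : ℕ,
          (((Finset.univ.filter (fun i => μ < n i)).card ≤ 8 ∨
            ((Finset.univ.filter (fun i => μ < n i)).card = 9 ∧
              ∑ i ∈ Finset.univ.filter (fun i => μ < n i), n i + μ ≤ 3 * e)) →
            -(3 * (μ : ℤ) ^ 2) < vd e n ∧ vd e n < 6 * (μ : ℤ) ^ 2) ∧
          ((Finset.univ.filter (fun i => μ < n i)).card ≤ 9 →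
            -(15 * (μ : ℤ) ^ 2) < vd e n ∧ vd e n < 7 * (μ : ℤ) ^ 2)) ∧
        ∀ σ : Equiv.Perm (Fin h), Antitone (fun i => n (σ i)) →
          ((∃ i j : Fin h, (i : ℕ) = 0 ∧ (j : ℕ) = 8 ∧ e = n (σ i) + 2 * n (σ j)) ∨
            3 * e < ∑ i : Fin h, (if (i : ℕ) < 9 ∨ Odd (i : ℕ) then n (σ i) else 0)) ∧
          ∃ (i0 i9 : Fin h) (A s μ : ℕ), (i0 : ℕ) = 0 ∧ (i9 : ℕ) = 9 ∧ μ = n (σ i9) ∧ 1 ≤ μ ∧
            e ^ 2 = ∑ i : Fin h, (if (i : ℕ) < 9 then n (σ i) ^ 2 else 0) + A ∧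
            3 * e = ∑ i : Fin h, (if (i : ℕ) < 9 then n (σ i) else 0) + s ∧ 1 ≤ s ∧
            A < 4000000 * μ ^ 3 ∧
            ∀ r : ℕ, μ ≤ r → C * r ≤ s → C * r + n (σ i0) ≤ e →
              |((vd e n : ℤ) : ℝ)| <
                C * (((r : ℝ) * μ ^ 2 / A) ^ 2 + μ + ((A : ℝ) / r) ^ (3 / 4 : ℝ)) *
                  Real.log ((A : ℝ) / μ ^ 2 + 2) ^ 3 := by
  obtain ⟨C, hC⟩ := bad_x
  refine ⟨C, fun h d m hh => ?_⟩
  rcases hh_main hh d m with h1 | ⟨e, n, hr, hred, hbad⟩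
  · exact Or.inl h1
  · refine Or.inr ⟨e, n, hr, fun i => le_of_reach hr i, hred, general_special_of_bad hbad, ?_, ?_⟩
    · intro μ
      rcases Nat.eq_zero_or_pos μ with hz | hμ
      · subst hz
        have h9 : ¬ (Finset.univ.filter (fun i => 0 < n i)).card ≤ 9 := fun hc =>
          hbad (nonspecial_nine hh hred hc)
        refine ⟨fun hc => absurd ?_ h9, fun hc => absurd hc h9⟩
        rcases hc with hc | ⟨hc, -⟩ <;> omega
      refine ⟨fun hc => ?_, fun hc => ?_⟩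
      · by_contra hcon
        apply hbad
        apply window_nine hh hred hμ hc
        by_contra hne
        push Not at hne
        exact hcon hne
      · by_contra hcon
        apply hbad
        apply window_ten hh hred hμ hc
        by_contra hne
        push Not at hne
        exact hcon hne
    · intro σ hσ
      exact ⟨reflect_bad hh hred hbad σ hσ, hC h e n hh hred hbad σ hσ⟩

end Pool.Agent.Lib.MP_6b2d39_agVx
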