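import Pool.Agent.Lib.MP_6b2d39_agUv.EndV
import Pool.Agent.Lib.MP_6b2d39_agUp.P2End

/-!
The two black boxes for the abstract rows.
-/

set_option autoImplicit false

namespace Pool.Agent.Lib.MP_6b2d39_agVx

open Pool.Agent.Lib.MP_6b2d39_agArr Pool.Agent.Lib.MP_6b2d39_agUn Pool.Agent.Lib.MP_6b2d39_agUv

variable {ι : Type} [DecidableEq ι]

/-- one of the two sets of numbers for the abstract rows -/
def BoxX (M z Q W : ℕ) : Prop :=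
  (∃ X, AbV M z Q X W) ∨ ∃ X Y, MP_6b2d39_agUp.AbY M z Q X W Y

theorem BoxX.hM {M z Q W : ℕ} (h : BoxX M z Q W) : 1 ≤ M := by
  rcases h with ⟨X, h⟩ | ⟨X, Y, h⟩
  · exact h.hM
  · exact h.hM

theorem box_neg {M z Q W T : ℕ} (h : BoxX M z Q W) {R : ℕ → ℤ} (hR : RwA M z Q T R)
    {m : ι → ℕ} {J : Finset ι} (hm : ∀ i ∈ J, m i ≤ M) {v0 : ℤ}
    (hs : ∑ c ∈ Finset.range T, R c = v0 + ms m J) (h1 : v0 ≤ -(W : ℤ))
    (h2 : -((W : ℤ) + M) ≤ v0) : Cert m J T R := by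
  rcases h with ⟨X, h⟩ | ⟨X, Y, h⟩
  · exact ar_negV h hR hm hs h1 h2
  · exact MP_6b2d39_agUp.ar_negY h hR hm hs h1 h2

theorem box_pos {M z Q W T : ℕ} (h : BoxX M z Q W) {R : ℕ → ℤ} (hR : RwA M z Q T R)
    {m : ι → ℕ} {J Z : Finset ι} (hJZ : Disjoint J Z) (hm : ∀ i ∈ J, m i ≤ M)
    (hZ : ∀ i ∈ Z, m i = 1) (hs : ∑ c ∈ Finset.range T, R c = Z.card + ms m J)
    (h1 : W ≤ Z.card) (h2 : Z.card ≤ W + M ^ 2) : Cert m (J ∪ Z) T R := by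
  rcases h with ⟨X, h⟩ | ⟨X, Y, h⟩
  · exact ar_posV h hR hJZ hm hZ hs h1 h2
  · exact MP_6b2d39_agUp.ar_posY h hR hJZ hm hZ hs h1 h2

end Pool.Agent.Lib.MP_6b2d39_agVx
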