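import Pool.Agent.Lib.MP_6b2d39_agVn.OmOne

/-!
The class `3 c` of the curve for the window, with a free parameter `Λ ≥ 400 M`.

PROOF. The proof of `om_w` (`Vw/OmW.lean`) with `Λ` instead of `400 M`: `c j = a j / Λ`, `d = 3 c`, `a' = a - (3 M + 1) d` (`(3 M + 1) * 3 ≤ 12 M ≤ Λ / 2`,
so `2 a' j ≥ a j`). (i) `3 a ≥ Λ d`, so `3 * 2 pr a d ≥ 2 Λ pr d d ≥ 800 M pr d d ≥ 3 (256 M + 1) pr d d`. (ii) `sg (3 c) = 3 sg c ≤ 9 pr c c`.
(iii) `3 pr a a ≥ Λ pr a d ≥ 400 M pr a d`; the same inequality is the last but one claim. (iv) `pr a a ≤ 61 Λ pr a c`, `3 pr a c = pr a d`.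
-/

open Polynomial

set_option autoImplicit false

namespace Pool.Agent.Lib.MP_6b2d39_agVx

open Pool.Agent.Lib.MP_6b2d39_agVn

private theorem omX_sum10 (f : Fin 10 → ℕ) :
    ∑ i, f i = f 0 + f 1 + f 2 + f 3 + f 4 + f 5 + f 6 + f 7 + f 8 + f 9 := by
  rw [Fin.sum_univ_castSucc, Fin.sum_univ_castSucc, Fin.sum_univ_eight]
  rfl

private theorem omX_gr (b : Fin 10 → ℕ) :
    gr b 0 = b 0 + b 1 + 2 * b 2 + 3 * (b 3 + b 4 + b 5 + b 6 + b 7 + b 8 + b 9) ∧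
    gr b 1 = b 0 + b 2 + 2 * (b 3 + b 4 + b 5 + b 6 + b 7 + b 8 + b 9) ∧
    gr b 2 = 2 * b 0 + b 1 + 2 * b 2 + 4 * (b 3 + b 4 + b 5 + b 6 + b 7 + b 8 + b 9) ∧
    gr b 3 = 3 * b 0 + 2 * b 1 + 4 * b 2 + 6 * (b 3 + b 4 + b 5 + b 6 + b 7 + b 8 + b 9) ∧
    gr b 4 = 3 * b 0 + 2 * b 1 + 4 * b 2 + 6 * b 3 +
      5 * (b 4 + b 5 + b 6 + b 7 + b 8 + b 9) ∧
    gr b 5 = 3 * b 0 + 2 * b 1 + 4 * b 2 + 6 * b 3 + 5 * b 4 +
      4 * (b 5 + b 6 + b 7 + b 8 + b 9) ∧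
    gr b 6 = 3 * b 0 + 2 * b 1 + 4 * b 2 + 6 * b 3 + 5 * b 4 + 4 * b 5 +
      3 * (b 6 + b 7 + b 8 + b 9) ∧
    gr b 7 = 3 * b 0 + 2 * b 1 + 4 * b 2 + 6 * b 3 + 5 * b 4 + 4 * b 5 + 3 * b 6 +
      2 * (b 7 + b 8 + b 9) ∧
    gr b 8 = 3 * b 0 + 2 * b 1 + 4 * b 2 + 6 * b 3 + 5 * b 4 + 4 * b 5 + 3 * b 6 + 2 * b 7 +
      (b 8 + b 9) ∧
    gr b 9 = 3 * b 0 + 2 * b 1 + 4 * b 2 + 6 * b 3 + 5 * b 4 + 4 * b 5 + 3 * b 6 + 2 * b 7 +
      b 8 := ⟨rfl, rfl, rfl, rfl, rfl, rfl, rfl, rfl, rfl, rfl⟩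

private def omXs (b : Fin 10 → ℕ) : ℕ :=
  b 0 + b 1 + b 2 + b 3 + b 4 + b 5 + b 6 + b 7 + b 8 + b 9

private theorem omX_up (b : Fin 10 → ℕ) (j : Fin 10) : gr b j ≤ 6 * omXs b := by
  obtain ⟨g0, g1, g2, g3, g4, g5, g6, g7, g8, g9⟩ := omX_gr b
  unfold omXs
  fin_cases j
  · show gr b 0 ≤ _
    omega
  · show gr b 1 ≤ _
    omega
  · show gr b 2 ≤ _
    omega
  · show gr b 3 ≤ _
    omega
  · show gr b 4 ≤ _
    omega
  · show gr b 5 ≤ _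
    omega
  · show gr b 6 ≤ _
    omega
  · show gr b 7 ≤ _
    omega
  · show gr b 8 ≤ _
    omega
  · show gr b 9 ≤ _
    omega

private theorem omX_lo (b : Fin 10 → ℕ) {j : Fin 10} (h1 : j ≠ 1) (h9 : j ≠ 9) :
    omXs b ≤ gr b j := by
  obtain ⟨g0, g1, g2, g3, g4, g5, g6, g7, g8, g9⟩ := omX_gr b
  unfold omXs
  fin_cases j
  · show _ ≤ gr b 0
    omega
  · exact absurd rfl h1
  · show _ ≤ gr b 2
    omega
  · show _ ≤ gr b 3
    omega
  · show _ ≤ gr b 4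
    omega
  · show _ ≤ gr b 5
    omega
  · show _ ≤ gr b 6
    omega
  · show _ ≤ gr b 7
    omega
  · show _ ≤ gr b 8
    omega
  · exact absurd rfl h9

private theorem omX_lo' (b : Fin 10 → ℕ) : omXs b ≤ gr b 1 + gr b 9 := by
  obtain ⟨g0, g1, g2, g3, g4, g5, g6, g7, g8, g9⟩ := omX_gr b
  unfold omXs
  omega

private theorem omX_mono {a b : Fin 10 → ℕ} (c : Fin 10 → ℕ) (h : ∀ j, a j ≤ b j) :
    pr a c ≤ pr b c := by
  unfold pr
  exact Finset.sum_le_sum fun j _ => Nat.mul_le_mul_right _ (h j)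

/-- (ii) -/
private theorem omX_sg {c : Fin 10 → ℕ} (h : ∃ i, i ≠ 1 ∧ 1 ≤ c i) : sg c ≤ 3 * pr c c := by
  obtain ⟨g0, g1, g2, g3, g4, g5, g6, g7, g8, g9⟩ := omX_gr c
  have hg1 : 1 ≤ gr c 1 := by
    obtain ⟨i, hi, hc⟩ := h
    rw [g1]
    fin_cases i
    · change 1 ≤ c 0 at hc
      omega
    · exact absurd rfl hi
    · change 1 ≤ c 2 at hc
      omega
    · change 1 ≤ c 3 at hc
      omega
    · change 1 ≤ c 4 at hc
      omega
    · change 1 ≤ c 5 at hc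
      omega
    · change 1 ≤ c 6 at hc
      omega
    · change 1 ≤ c 7 at hc
      omega
    · change 1 ≤ c 8 at hc
      omega
    · change 1 ≤ c 9 at hc
      omega
  have key : ∀ (j : Fin 10) (σ : ℕ), (1 ≤ c j → σ ≤ 3 * gr c j) → σ * c j ≤ 3 * (c j * gr c j) := by
    intro j σ hj
    rcases Nat.eq_zero_or_pos (c j) with h0 | h0
    · rw [h0]
      simp
    · calc σ * c j ≤ (3 * gr c j) * c j := Nat.mul_le_mul_right _ (hj h0)
        _ = 3 * (c j * gr c j) := by ring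
  have k0 := key 0 3 fun h0 => by rw [g0]; omega
  have k1 := key 1 2 fun h0 => by omega
  have k2 := key 2 4 fun h0 => by rw [g2]; omega
  have k3 := key 3 6 fun h0 => by rw [g3]; omega
  have k4 := key 4 5 fun h0 => by rw [g4]; omega
  have k5 := key 5 4 fun h0 => by rw [g5]; omega
  have k6 := key 6 3 fun h0 => by rw [g6]; omega
  have k7 := key 7 2 fun h0 => by rw [g7]; omega
  have k8 := key 8 1 fun h0 => by rw [g8]; omega
  have hp : pr c c = c 0 * gr c 0 + c 1 * gr c 1 + c 2 * gr c 2 + c 3 * gr c 3 + c 4 * gr c 4 +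
      c 5 * gr c 5 + c 6 * gr c 6 + c 7 * gr c 7 + c 8 * gr c 8 + c 9 * gr c 9 := by
    unfold pr
    rw [omX_sum10]
  rw [hp]
  unfold sg
  omega

private theorem omX_sg2 {a b : Fin 10 → ℕ} (h : ∀ j, a j ≤ 2 * b j) : sg a ≤ 2 * sg b := by
  unfold sg
  have h0 := h 0
  have h1 := h 1
  have h2 := h 2
  have h3 := h 3
  have h4 := h 4
  have h5 := h 5
  have h6 := h 6
  have h7 := h 7
  have h8 := h 8
  omega

/-- (iv) -/
private theorem omX_pr {L : ℕ} {a c : Fin 10 → ℕ} (hu : ∀ j, a j ≤ L * c j + L)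
    (hX : omXs a ≤ pr c a) : pr a a ≤ 61 * L * pr c a := by
  have h1 : ∀ j, gr a j ≤ 6 * pr c a := fun j =>
    (omX_up a j).trans (Nat.mul_le_mul_left 6 hX)
  have h2 : ∑ j : Fin 10, gr a j ≤ 60 * pr c a := by
    rw [omX_sum10]
    have k0 := h1 0
    have k1 := h1 1
    have k2 := h1 2
    have k3 := h1 3
    have k4 := h1 4
    have k5 := h1 5
    have k6 := h1 6
    have k7 := h1 7
    have k8 := h1 8
    have k9 := h1 9
    omega
  have h3 : pr a a ≤ ∑ j : Fin 10, (L * (c j * gr a j) + L * gr a j) := by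
    have h4 : pr a a = ∑ j : Fin 10, a j * gr a j := rfl
    rw [h4]
    refine Finset.sum_le_sum fun j _ => ?_
    calc a j * gr a j ≤ (L * c j + L) * gr a j := Nat.mul_le_mul_right _ (hu j)
      _ = L * (c j * gr a j) + L * gr a j := by ring
  have h5 : ∑ j : Fin 10, (L * (c j * gr a j) + L * gr a j)
      = L * pr c a + L * ∑ j : Fin 10, gr a j := by
    rw [Finset.sum_add_distrib, ← Finset.mul_sum, ← Finset.mul_sum]
    rfl
  calc pr a a ≤ L * pr c a + L * ∑ j : Fin 10, gr a j := by rw [← h5]; exact h3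
    _ ≤ L * pr c a + L * (60 * pr c a) := Nat.add_le_add_left (Nat.mul_le_mul_left L h2) _
    _ = 61 * L * pr c a := by ring

theorem om_x {M Λ : ℕ} (hM : 1 ≤ M) (hΛ : 400 * M ≤ Λ) {a : Fin 10 → ℕ} (hs : 1 ≤ sg a)
    (hcase : (∃ i, i ≠ 1 ∧ i ≠ 9 ∧ Λ ≤ a i) ∨ (Λ ≤ a 1 ∧ Λ ≤ a 9)) :
    ∃ c a' : Fin 10 → ℕ, (∃ i, i ≠ 9 ∧ 1 ≤ c i) ∧ (∃ i, i ≠ 1 ∧ 1 ≤ c i) ∧
      a = a' + (3 * M + 1) • (3 • c) ∧ 1 ≤ sg a' ∧
      (256 * M + 1) * pr (3 • c) (3 • c) ≤ 2 * pr a (3 • c) ∧ sg (3 • c) ≤ pr (3 • c) (3 • c) ∧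
      64 * M * pr a (3 • c) ≤ pr a a ∧ Λ * pr a (3 • c) ≤ 3 * pr a a ∧
      pr a a ≤ 21 * Λ * pr a (3 • c) := by
  have hL : 0 < Λ := by omega
  obtain ⟨c, hc⟩ : ∃ c : Fin 10 → ℕ, ∀ j, c j = a j / Λ := ⟨fun j => a j / Λ,
    fun _ => rfl⟩
  have hc1 : ∀ j, Λ * c j ≤ a j := by
    intro j
    rw [hc]
    exact Nat.mul_div_le (a j) Λ
  have hc2 : ∀ j, a j ≤ Λ * c j + Λ := by
    intro j
    rw [hc]
    have h1 := Nat.div_add_mod (a j) Λ
    have h2 := Nat.mod_lt (a j) hL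
    omega
  have hge : ∀ j, Λ ≤ a j → 1 ≤ c j := by
    intro j hj
    rw [hc]
    exact (Nat.one_le_div_iff hL).2 hj
  have h9 : ∃ i, i ≠ 9 ∧ 1 ≤ c i := by
    rcases hcase with ⟨i, _, h9, hi⟩ | ⟨h1, _⟩
    · exact ⟨i, h9, hge i hi⟩
    · exact ⟨1, by decide, hge 1 h1⟩
  have h1 : ∃ i, i ≠ 1 ∧ 1 ≤ c i := by
    rcases hcase with ⟨i, h1, _, hi⟩ | ⟨_, h9⟩
    · exact ⟨i, h1, hge i hi⟩
    · exact ⟨9, by decide, hge 9 h9⟩
  have hMc : ∀ j, 2 * ((3 * M + 1) * (3 * c j)) ≤ a j := by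
    intro j
    have e1 : 2 * ((3 * M + 1) * (3 * c j)) ≤ Λ * c j := by
      calc 2 * ((3 * M + 1) * (3 * c j)) = (18 * M + 6) * c j := by ring
        _ ≤ Λ * c j := Nat.mul_le_mul_right _ (by omega)
    exact e1.trans (hc1 j)
  have hX : omXs a ≤ pr c a := by
    have hp : pr c a = ∑ j : Fin 10, c j * gr a j := rfl
    rcases hcase with ⟨i, hi1, hi9, hi⟩ | ⟨k1, k9⟩
    · have e1 : c i * gr a i ≤ pr c a := by
        rw [hp]
        exact Finset.single_le_sum (f := fun j => c j * gr a j) (fun j _ => Nat.zero_le _)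
          (Finset.mem_univ i)
      have e2 : gr a i ≤ c i * gr a i := Nat.le_mul_of_pos_left _ (hge i hi)
      exact (omX_lo a hi1 hi9).trans (e2.trans e1)
    · have e1 : gr a 1 ≤ c 1 * gr a 1 := Nat.le_mul_of_pos_left _ (hge 1 k1)
      have e2 : gr a 9 ≤ c 9 * gr a 9 := Nat.le_mul_of_pos_left _ (hge 9 k9)
      have e3 : c 1 * gr a 1 + c 9 * gr a 9 ≤ pr c a := by
        rw [hp, omX_sum10]
        omega
      have e4 := omX_lo' a
      omega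
  have hd3 : ∀ b, Λ * pr (3 • c) b ≤ 3 * pr a b := by
    intro b
    rw [← pr_smul, ← pr_smul 3 a b]
    refine omX_mono b fun j => ?_
    simp only [Pi.smul_apply, smul_eq_mul]
    calc Λ * (3 * c j) = 3 * (Λ * c j) := by ring
      _ ≤ 3 * a j := Nat.mul_le_mul_left 3 (hc1 j)
  refine ⟨c, fun j => a j - (3 * M + 1) * (3 * c j), h9, h1, ?_, ?_, ?_, ?_, ?_, ?_, ?_⟩
  · funext j
    simp only [Pi.add_apply, Pi.smul_apply, smul_eq_mul]
    have := hMc j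
    omega
  · have e1 : sg a ≤ 2 * sg (fun j => a j - (3 * M + 1) * (3 * c j)) := by
      refine omX_sg2 fun j => ?_
      have := hMc j
      show a j ≤ 2 * (a j - (3 * M + 1) * (3 * c j))
      omega
    omega
  · have e1 := hd3 (3 • c)
    have e2 : (256 * M + 1) * pr (3 • c) (3 • c) * 3 ≤ 2 * pr a (3 • c) * 3 := by
      calc (256 * M + 1) * pr (3 • c) (3 • c) * 3
          = (768 * M + 3) * pr (3 • c) (3 • c) := by ring
        _ ≤ (2 * Λ) * pr (3 • c) (3 • c) := Nat.mul_le_mul_right _ (by omega)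
        _ = 2 * (Λ * pr (3 • c) (3 • c)) := by ring
        _ ≤ 2 * (3 * pr a (3 • c)) := Nat.mul_le_mul_left 2 e1
        _ = 2 * pr a (3 • c) * 3 := by ring
    exact Nat.le_of_mul_le_mul_right e2 (by norm_num)
  · have e1 := omX_sg h1
    have e2 : pr (3 • c) (3 • c) = 9 * pr c c := by
      rw [pr_smul, pr_symm, pr_smul]
      ring
    rw [sg_smul, e2]
    omega
  · have e1 := hd3 a
    rw [pr_symm (3 • c) a] at e1
    have e2 : 64 * M * pr a (3 • c) * 3 ≤ pr a a * 3 := by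
      calc 64 * M * pr a (3 • c) * 3 = 192 * M * pr a (3 • c) := by ring
        _ ≤ Λ * pr a (3 • c) := Nat.mul_le_mul_right _ (by omega)
        _ ≤ 3 * pr a a := e1
        _ = pr a a * 3 := by ring
    exact Nat.le_of_mul_le_mul_right e2 (by norm_num)
  · have e1 := hd3 a
    rw [pr_symm (3 • c) a] at e1
    exact e1
  · have e1 := omX_pr hc2 hX
    have e2 : pr a (3 • c) = 3 * pr c a := by
      rw [pr_symm, pr_smul]
    rw [e2]
    calc pr a a ≤ 61 * Λ * pr c a := e1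
      _ = 61 * (Λ * pr c a) := by ring
      _ ≤ 63 * (Λ * pr c a) := Nat.mul_le_mul_right _ (by norm_num)
      _ = 21 * Λ * (3 * pr c a) := by ring

end Pool.Agent.Lib.MP_6b2d39_agVx
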