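import Pool.Agent.Lib.MP_6b2d39_agVw.RowsW
import Pool.Agent.Lib.MP_6b2d39_agVx.OmX
import Pool.Agent.Lib.MP_6b2d39_agVx.BoxX
import Pool.Agent.Lib.MP_6b2d39_agVn.CurE
import Pool.Agent.Lib.MP_6b2d39_agUn.EmpT

/-!
Light points kill the system `a` outside of the window.

PROOF. The proofs of `Vw/CertW.lean` with `om_x` instead of `om_w` and `box_neg`, `box_pos` instead of `ar_negV`, `ar_posV`:
`exists_cur`, `d = 3 • c`, `Q = pr d d ≥ 8` (`9 pr c c ≥ 9`), `z = (2 pr a d + sg d - pr d d) / 2` (even, from `om_chi`),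
`128 M Q ≤ z` from (i) of `om_x`, `z ≤ pr a d` (`sg d ≤ pr d d`) hence `Λ z ≤ 3 pr a a` and `64 M z ≤ pr a a`; `2 z ≥ 2 pr a d - pr d d` and
`257 pr d d ≤ 2 pr a d`, so `257 z ≥ 256 pr a d` and `pr a a ≤ 21 Λ pr a d ≤ 22 Λ z`. `hN.num` gives `BoxX M z Q W`. `rows_w`, `Cert`,
`EmpP (dgm r T) l J`, `diagram` as in `Vw/CertW.lean`.
-/

open Polynomial

set_option autoImplicit false

namespace Pool.Agent.Lib.MP_6b2d39_agVx

open Pool.Agent.Lib.MP_6b2d39_ag Pool.Agent.Lib.MP_6b2d39_agHal Pool.Agent.Lib.MP_6b2d39_agVn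
  Pool.Agent.Lib.MP_6b2d39_agVw Pool.Agent.Lib.MP_6b2d39_agUn Pool.Agent.Lib.MP_6b2d39_agUv
  Pool.Agent.Lib.MP_6b2d39_agArr Pool.Agent.Lib.MP_6b2d39_agNw Pool.Agent.Lib.MP_6b2d39_agWin

/-- numbers for the window of the system `a` -/
structure NwX (M Λ : ℕ) (a : Fin 10 → ℕ) (W : ℕ) : Prop where
  hM : 1 ≤ M
  hΛ : 400 * M ≤ Λ
  hs : 1 ≤ sg a
  hcase : (∃ i, i ≠ 1 ∧ i ≠ 9 ∧ Λ ≤ a i) ∨ (Λ ≤ a 1 ∧ Λ ≤ a 9)
  num : ∀ z Q : ℕ, 8 ≤ Q → 128 * M * Q ≤ z → pr a a ≤ 22 * Λ * z → Λ * z ≤ 3 * pr a a →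
    BoxX M z Q W

private theorem certX_ms {ι : Type} (l : ι → ℕ) (J : Finset ι) :
    ms l J = ((mass l J : ℕ) : ℤ) := by
  unfold ms mass
  push_cast
  refine Finset.sum_congr rfl fun i _ => ?_
  rw [Nat.choose_two_right, Nat.add_sub_cancel, Nat.mul_comm (l i + 1) (l i)]
  push_cast
  rfl

private theorem certX_emp {ι : Type} [Fintype ι] [DecidableEq ι] {L : ℕ} {μ : ι → ℕ} {r : ℕ → ℕ}
    {J : Finset ι} (h : Cert μ J L (fun b => (r b : ℤ))) : EmpP (dgm r L) μ J := by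
  refine empP_of_cert_up (c := 0) h (fun b _ => ?_) (fun p hp => ?_)
  · rw [zero_add]
    have hsub : rowOf (dgm r L) b ⊆ Finset.range (r b) := by
      intro a ha
      unfold rowOf at ha
      rw [Finset.mem_image] at ha
      obtain ⟨p, hp, rfl⟩ := ha
      rw [Finset.mem_filter, mem_dgm] at hp
      rw [Finset.mem_range, ← hp.2]
      exact hp.1.2
    have hc := Finset.card_le_card hsub
    rw [Finset.card_range] at hc
    exact_mod_cast hc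
  · rw [mem_dgm] at hp
    exact ⟨Nat.zero_le _, by rw [zero_add]; exact hp.1⟩

/-- the curve, its rows and the numbers -/
private theorem certX_setup {M Λ W : ℕ} {a : Fin 10 → ℕ} (hN : NwX M Λ a W) :
    ∃ (d : Fin 10 → ℕ) (t : Fin 9 → ℂ) (w : ℂ) (G : ℂ[X][X]) (z T : ℕ) (r : ℕ → ℕ),
      Cur d t w G ∧ BoxX M z (pr d d) W ∧ RwA M z (pr d d) T (fun b => (r b : ℤ)) ∧
      (∀ b < T, Module.finrank ℂ (quo G b (Sp (dg a + 1) (fun i => gam (t i)) (mu a))) ≤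
        r b + Module.finrank ℂ (quo G (b + 1) (Sp (dg a + 1) (fun i => gam (t i)) (mu a)))) ∧
      (∀ F : ℂ[X][X], G ^ T * F ∈ Sp (dg a + 1) (fun i => gam (t i)) (mu a) → F = 0) ∧
      ∑ b ∈ Finset.range T, r b + ∑ i, (mu a i + 1).choose 2 = (dg a + 2).choose 2 := by
  obtain ⟨c, a', h9, h1, ha, hs', hi, hii, hiii, hiv, hv⟩ := om_x hN.hM hN.hΛ hN.hs hN.hcase
  obtain ⟨t, w, G, hG⟩ := exists_cur h9 h1
  have hM := hN.hM
  set d : Fin 10 → ℕ := 3 • c with hd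
  -- the slope
  have hQ9 : pr d d = 9 * pr c c := by
    rw [hd, pr_smul, pr_symm, pr_smul]
    ring
  have hdim := hG.dim
  have hQ : 8 ≤ pr d d := by omega
  have hsg : sg d = 3 * sg c := by rw [hd, sg_smul]
  have hpos := hG.pos
  have h2 : 2 ≤ sg d := by omega
  -- the first row
  have hchi := om_chi d
  set Q : ℕ := pr d d with hQd
  set s : ℕ := sg d with hsd
  set P : ℕ := pr a d with hPd
  have hQP : Q ≤ 2 * P := by
    have h3 : 1 * Q ≤ (256 * M + 1) * Q := Nat.mul_le_mul_right Q (by omega)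
    omega
  obtain ⟨z, hz⟩ : ∃ z, 2 * z + Q = 2 * P + s := by
    refine ⟨(2 * P + s - Q) / 2, ?_⟩
    omega
  have hzP : z ≤ P := by omega
  have hz1 : 128 * M * Q ≤ z := by
    have h3 : (256 * M + 1) * Q = 2 * (128 * M * Q) + Q := by ring
    omega
  have hbig : 64 * M * z ≤ pr a a := le_trans (Nat.mul_le_mul_left _ hzP) hiii
  -- `257 z` against `256 P`
  have hPz : 256 * P ≤ 257 * z := by
    have h3 : 257 * Q ≤ (256 * M + 1) * Q := Nat.mul_le_mul_right Q (by omega)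
    omega
  have hup : pr a a ≤ 22 * Λ * z := by
    have h3 : 256 * (21 * Λ * P) ≤ 256 * (22 * Λ * z) := by
      have h4 : 256 * (21 * Λ * P) = 21 * Λ * (256 * P) := by ring
      rw [h4]
      calc 21 * Λ * (256 * P) ≤ 21 * Λ * (257 * z) := Nat.mul_le_mul_left _ hPz
        _ = 5397 * (Λ * z) := by ring
        _ ≤ 5632 * (Λ * z) := Nat.mul_le_mul_right _ (by norm_num)
        _ = 256 * (22 * Λ * z) := by ring
    have h5 : 21 * Λ * P ≤ 22 * Λ * z := Nat.le_of_mul_le_mul_left h3 (by norm_num)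
    exact hv.trans h5
  have hlo : Λ * z ≤ 3 * pr a a := le_trans (Nat.mul_le_mul_left _ hzP) hiv
  obtain ⟨T, r, hr1, hr2, hr3, hr4⟩ := rows_w hG h2 hM ha hs' hz hbig
  exact ⟨d, t, w, G, z, T, r, hG, hN.num z Q hQ hz1 hup hlo, hr1, hr2, hr3, hr4⟩

theorem cert_neg {M Λ W : ℕ} {a : Fin 10 → ℕ} (hN : NwX M Λ a W) {ι : Type} [Fintype ι]
    [DecidableEq ι] {l : ι → ℕ} {J : Finset ι} (hJ : ∀ j ∈ J, l j ≤ M)
    (h1 : (dg a + 2).choose 2 + W ≤ ∑ i, (mu a i + 1).choose 2 + mass l J)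
    (h2 : ∑ i, (mu a i + 1).choose 2 + mass l J ≤ (dg a + 2).choose 2 + (W + M)) :
    ∃ (p : Fin 9 → ℂ × ℂ) (x y : ι → ℂ), ∀ F ∈ Sp (dg a + 1) p (mu a),
      (∀ i ∈ J, Cond (Finset.Icc 1 (l i)) (x i) (y i) F) → F = 0 := by
  obtain ⟨d, t, w, G, z, T, r, hG, hA, hR, hr2, hr3, hr4⟩ := certX_setup hN
  have hms := certX_ms l J
  have hC : Cert l J T (fun b => (r b : ℤ)) := by
    refine box_neg hA hR hJ
      (v0 := ((∑ b ∈ Finset.range T, r b : ℕ) : ℤ) - ((mass l J : ℕ) : ℤ)) ?_ ?_ ?_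
    · rw [hms]
      push_cast
      ring
    · have h3 : ∑ b ∈ Finset.range T, r b + W ≤ mass l J := by omega
      have h4 : ((∑ b ∈ Finset.range T, r b : ℕ) : ℤ) + W ≤ ((mass l J : ℕ) : ℤ) := by
        exact_mod_cast h3
      linarith
    · have h3 : mass l J ≤ ∑ b ∈ Finset.range T, r b + (W + M) := by omega
      have h4 : ((mass l J : ℕ) : ℤ) ≤ ((∑ b ∈ Finset.range T, r b : ℕ) : ℤ) + (W + M) := by
        exact_mod_cast h3
      linarith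
  obtain ⟨x', y', hxy⟩ := diagram (f := G) hG.irr hG.natDegree hG.dep
    (W := Sp (dg a + 1) (fun i => gam (t i)) (mu a)) (n := T) (r := r) hr2 hr3 (certX_emp hC)
  exact ⟨fun i => gam (t i), x', y', hxy⟩

theorem cert_pos {M Λ W : ℕ} {a : Fin 10 → ℕ} (hN : NwX M Λ a W) {ι : Type} [Fintype ι]
    [DecidableEq ι] {l : ι → ℕ} {J Z : Finset ι} (hJZ : Disjoint J Z) (hJ : ∀ j ∈ J, l j ≤ M)
    (hZ : ∀ j ∈ Z, l j = 1)
    (hmass : (dg a + 2).choose 2 = ∑ i, (mu a i + 1).choose 2 + mass l J + Z.card)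
    (h1 : W ≤ Z.card) (h2 : Z.card ≤ W + M ^ 2) :
    ∃ (p : Fin 9 → ℂ × ℂ) (x y : ι → ℂ), ∀ F ∈ Sp (dg a + 1) p (mu a),
      (∀ i ∈ J ∪ Z, Cond (Finset.Icc 1 (l i)) (x i) (y i) F) → F = 0 := by
  obtain ⟨d, t, w, G, z, T, r, hG, hA, hR, hr2, hr3, hr4⟩ := certX_setup hN
  have hms := certX_ms l J
  have hC : Cert l (J ∪ Z) T (fun b => (r b : ℤ)) := by
    refine box_pos hA hR hJZ hJ hZ ?_ h1 h2
    rw [hms]
    have h3 : ∑ b ∈ Finset.range T, r b = Z.card + mass l J := by omega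
    exact_mod_cast h3
  obtain ⟨x', y', hxy⟩ := diagram (f := G) hG.irr hG.natDegree hG.dep
    (W := Sp (dg a + 1) (fun i => gam (t i)) (mu a)) (n := T) (r := r) hr2 hr3 (certX_emp hC)
  exact ⟨fun i => gam (t i), x', y', hxy⟩

end Pool.Agent.Lib.MP_6b2d39_agVx
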