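import Pool.Agent.Lib.MP_6b2d39_agVn.Om
import Pool.Agent.Lib.MP_6b2d39_agCr.Defs

/-!
The degree of a reduced system is at most `3 A`.
-/

open Polynomial

set_option autoImplicit false

namespace Pool.Agent.Lib.MP_6b2d39_agVx

open Pool.Agent.Lib.MP_6b2d39_ag Pool.Agent.Lib.MP_6b2d39_agHal Pool.Agent.Lib.MP_6b2d39_agVn
  Pool.Agent.Lib.MP_6b2d39_agCr

private theorem dx_sum10 (f : Fin 10 → ℕ) :
    ∑ i, f i = f 0 + (f 1 + (f 2 + (f 3 + (f 4 + (f 5 + (f 6 + (f 7 + (f 8 + f 9)))))))) := by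
  simp only [Fin.sum_univ_succ, Fin.sum_univ_zero, Fin.succ_zero_eq_one, Fin.succ_one_eq_two]
  rfl

theorem deg_om {a : Fin 10 → ℕ} (hs : 1 ≤ sg a) (h1 : mu a 0 + 1 ≤ dg a) :
    dg a ≤ 3 * pr a a := by
  have hmu : mu a 0 = a 1 + a 2 + a 3 + a 4 + a 5 + a 6 + a 7 + a 8 + a 9 := rfl
  have hp : pr a a = ∑ j, a j * gr a j := rfl
  have g : ∀ j, 1 ≤ gr a j := by
    intro j
    rw [sg] at hs
    rw [hmu, dg] at h1
    fin_cases j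
    · show 1 ≤ a 0 + a 1 + 2 * a 2 + 3 * (a 3 + a 4 + a 5 + a 6 + a 7 + a 8 + a 9)
      omega
    · show 1 ≤ a 0 + a 2 + 2 * (a 3 + a 4 + a 5 + a 6 + a 7 + a 8 + a 9)
      omega
    · show 1 ≤ 2 * a 0 + a 1 + 2 * a 2 + 4 * (a 3 + a 4 + a 5 + a 6 + a 7 + a 8 + a 9)
      omega
    · show 1 ≤ 3 * a 0 + 2 * a 1 + 4 * a 2 + 6 * (a 3 + a 4 + a 5 + a 6 + a 7 + a 8 + a 9)
      omega
    · show 1 ≤ 3 * a 0 + 2 * a 1 + 4 * a 2 + 6 * a 3 + 5 * (a 4 + a 5 + a 6 + a 7 + a 8 + a 9)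
      omega
    · show 1 ≤ 3 * a 0 + 2 * a 1 + 4 * a 2 + 6 * a 3 + 5 * a 4 +
        4 * (a 5 + a 6 + a 7 + a 8 + a 9)
      omega
    · show 1 ≤ 3 * a 0 + 2 * a 1 + 4 * a 2 + 6 * a 3 + 5 * a 4 + 4 * a 5 +
        3 * (a 6 + a 7 + a 8 + a 9)
      omega
    · show 1 ≤ 3 * a 0 + 2 * a 1 + 4 * a 2 + 6 * a 3 + 5 * a 4 + 4 * a 5 + 3 * a 6 +
        2 * (a 7 + a 8 + a 9)
      omega
    · show 1 ≤ 3 * a 0 + 2 * a 1 + 4 * a 2 + 6 * a 3 + 5 * a 4 + 4 * a 5 + 3 * a 6 + 2 * a 7 +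
        (a 8 + a 9)
      omega
    · show 1 ≤ 3 * a 0 + 2 * a 1 + 4 * a 2 + 6 * a 3 + 5 * a 4 + 4 * a 5 + 3 * a 6 + 2 * a 7 + a 8
      omega
  have h2 : ∑ j, a j ≤ pr a a := by
    rw [hp]
    exact Finset.sum_le_sum fun j _ => Nat.le_mul_of_pos_right _ (g j)
  rw [dx_sum10] at h2
  rw [dg]
  omega

/-- the degree of a reduced system with positive anticanonical degree -/
theorem deg_x {h e A s : ℕ} {n : Fin h → ℕ} (hred : Reduced e n) (τ : Fin 9 ↪ Fin h)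
    (hτ : Antitone (fun i => n (τ i))) (h1 : ∀ i, 1 ≤ n (τ i))
    (hA : e ^ 2 = ∑ i, n (τ i) ^ 2 + A) (hs : 3 * e = ∑ i, n (τ i) + s) (hs1 : 1 ≤ s) :
    e ≤ 3 * A := by
  have hr : n (τ 0) + n (τ 1) + n (τ 2) ≤ e := by
    have h1 := hred ((Fin.castLEEmb (by norm_num : 3 ≤ 9)).trans τ)
    rw [Fin.sum_univ_three] at h1
    exact h1
  obtain ⟨a, he, hm⟩ := exists_coord (m := fun i => n (τ i)) hτ hr
  have hm' : ∀ i, n (τ i) = mu a i := fun i => congrFun hm i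
  have e1 : pr a a = A := by
    have h2 := pr_eq a a
    have h3 : ∑ i, mu a i * mu a i = ∑ i, n (τ i) ^ 2 :=
      Finset.sum_congr rfl fun i _ => by rw [hm' i, pow_two]
    rw [h3, ← he] at h2
    rw [pow_two] at hA
    omega
  have e2 : sg a = s := by
    have h2 := om_deg a
    have h3 : ∑ i, mu a i = ∑ i, n (τ i) := Finset.sum_congr rfl fun i _ => (hm' i).symm
    rw [h3, ← he] at h2
    omega
  have h2 := h1 1
  rw [he, ← e1]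
  refine deg_om (by omega) ?_
  rw [← hm' 0, ← he]
  omega

end Pool.Agent.Lib.MP_6b2d39_agVx
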