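import Pool.Agent.Lib.MP_6b2d39_agVx.NineX
import Pool.Agent.Lib.MP_6b2d39_agUn.DimU
import Pool.Agent.Lib.MP_6b2d39_agHal.Ten

/-!
The dimension inside of the window: simple points.
-/

open Polynomial

set_option autoImplicit false

namespace Pool.Agent.Lib.MP_6b2d39_agVx

open Pool.Agent.Lib.MP_6b2d39_ag Pool.Agent.Lib.MP_6b2d39_agHal Pool.Agent.Lib.MP_6b2d39_agVn
  Pool.Agent.Lib.MP_6b2d39_agUn Pool.Agent.Lib.MP_6b2d39_agCr

/-- simple points added to a reduced system with three positive multiplicities outside of any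
three points -/
theorem reduced_simple {h e k : ℕ} {n : Fin h → ℕ} (hred : Reduced e n) {S : Finset (Fin h)}
    (hS : S.card = 9) (h1 : ∀ i ∈ S, 1 ≤ n i) :
    Reduced e (Fin.append n (fun _ : Fin k => 1)) := by
  intro f
  obtain ⟨U, hU⟩ : ∃ U : Finset (Fin h), U = Finset.univ.filter
      (fun l => ∃ i, f i = Fin.castAdd k l) := ⟨_, rfl⟩
  have hUc : U.card ≤ 3 := by
    have h2 : U.map (Fin.castAddEmb k) ⊆ Finset.univ.map f := by
      intro x hx
      rw [Finset.mem_map] at hx ⊢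
      obtain ⟨l, hl, rfl⟩ := hx
      rw [hU, Finset.mem_filter] at hl
      obtain ⟨i, hi⟩ := hl.2
      exact ⟨i, Finset.mem_univ _, hi⟩
    have h3 := Finset.card_le_card h2
    rw [Finset.card_map, Finset.card_map, Finset.card_univ, Fintype.card_fin] at h3
    exact h3
  have hV : 3 ≤ (S \ U).card := by
    have := Finset.le_card_sdiff U S
    omega
  obtain ⟨V, hVS, hVc⟩ := Finset.exists_subset_card_eq hV
  obtain ⟨g⟩ : Nonempty (Fin 3 ≃ V) := ⟨(V.equivFinOfCardEq hVc).symm⟩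
  have hgS : ∀ i, (g i : Fin h) ∈ S := fun i => (Finset.mem_sdiff.1 (hVS (g i).2)).1
  have hgU : ∀ i, (g i : Fin h) ∉ U := fun i => (Finset.mem_sdiff.1 (hVS (g i).2)).2
  have key : ∀ i, ∃ l : Fin h, (Fin.append n (fun _ : Fin k => 1)) (f i) ≤ n l ∧
      ((f i = Fin.castAdd k l ∧ l ∈ U) ∨ (l = g i)) := by
    intro i
    obtain ⟨x, hx⟩ : ∃ x, x = f i := ⟨_, rfl⟩
    rw [← hx]
    induction x using Fin.addCases with
    | left l =>
      refine ⟨l, by rw [Fin.append_left], Or.inl ⟨rfl, ?_⟩⟩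
      rw [hU, Finset.mem_filter]
      exact ⟨Finset.mem_univ _, i, hx.symm⟩
    | right j =>
      refine ⟨g i, ?_, Or.inr rfl⟩
      rw [Fin.append_right]
      exact h1 _ (hgS i)
  choose w hw1 hw2 using key
  have hinj : Function.Injective w := by
    intro i j hij
    rcases hw2 i with ⟨h2, h3⟩ | h2 <;> rcases hw2 j with ⟨h4, h5⟩ | h4
    · apply f.injective
      rw [h2, h4, hij]
    · exact absurd (by rw [← h4, ← hij]; exact h3) (hgU j)
    · exact absurd (by rw [← h2, hij]; exact h5) (hgU i)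
    · apply g.injective
      apply Subtype.ext
      rw [← h2, ← h4, hij]
  exact (Finset.sum_le_sum fun i _ => hw1 i).trans (hred ⟨w, hinj⟩)

/-- if the system with `k` more simple points is nonspecial and `v ≤ k` then the dimension is at
most `k` -/
theorem dim_k {h e k : ℕ} {n : Fin h → ℕ} (hk : vd e n ≤ k)
    (H : General (fun P => (Module.finrank ℂ
      (curves e (Fin.append n (fun _ : Fin k => 1)) P) : ℤ) =
        max (vd e (Fin.append n (fun _ : Fin k => 1))) 0)) :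
    General (fun P => (Module.finrank ℂ (curves e n P) : ℤ) ≤ k) := by
  have e1 : ((1 + 1).choose 2 : ℕ) = 1 := by decide
  have h3 : vd e (Fin.append n (fun _ : Fin k => 1)) = vd e n - k := by
    rw [vd_append, e1]
    push_cast
    ring
  rw [h3, max_eq_right (by omega)] at H
  exact general_le_simple n H

theorem vd_simple {h e k : ℕ} (n : Fin h → ℕ) :
    vd e (Fin.append n (fun _ : Fin k => 1)) = vd e n - k := by
  have e1 : ((1 + 1).choose 2 : ℕ) = 1 := by decide
  rw [vd_append, e1]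
  push_cast
  ring

/-- the dimension of every reduced system -/
theorem dim_ten {h e μ : ℕ} (hh : 3 ≤ h) {n : Fin h → ℕ} (hred : Reduced e n) (hμ : 1 ≤ μ)
    {S : Finset (Fin h)} (hS : S.card = 9) (h1 : ∀ i ∈ S, 1 ≤ n i) (hl : ∀ j, j ∉ S → n j ≤ μ) :
    General (fun P => (Module.finrank ℂ (curves e n P) : ℤ) ≤
      max (vd e n) 0 + 15 * (μ : ℤ) ^ 2) := by
  obtain ⟨k, hk⟩ : ∃ k : ℕ, k = (vd e n + 15 * (μ : ℤ) ^ 2).toNat := ⟨_, rfl⟩
  have hk1 : vd e n + 15 * (μ : ℤ) ^ 2 ≤ k := by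
    rw [hk]
    exact Int.self_le_toNat _
  have hk2 : (k : ℤ) ≤ max (vd e n) 0 + 15 * (μ : ℤ) ^ 2 := by
    have h2 : (0 : ℤ) ≤ (μ : ℤ) ^ 2 := by positivity
    rw [hk, Int.toNat_eq_max]
    have h3 := le_max_left (vd e n) 0
    have h4 := le_max_right (vd e n) 0
    exact max_le (by linarith) (by linarith)
  have h0 : (0 : ℤ) ≤ (μ : ℤ) ^ 2 := by positivity
  refine (dim_k (k := k) (by linarith) ?_).mono fun P hP => hP.trans hk2
  refine window_ten (by omega) (reduced_simple hred hS h1) hμ ?_ ?_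
  · have h2 : (Finset.univ.filter (fun i : Fin (h + k) =>
        μ < (Fin.append n (fun _ : Fin k => 1)) i)) ⊆ S.map (Fin.castAddEmb k) := by
      intro x hx
      rw [Finset.mem_filter] at hx
      have h3 := hx.2
      rw [Finset.mem_map]
      induction x using Fin.addCases with
      | left l =>
        rw [Fin.append_left] at h3
        refine ⟨l, ?_, rfl⟩
        by_contra hcon
        have := hl l hcon
        omega
      | right j =>
        rw [Fin.append_right] at h3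
        omega
    have h3 := Finset.card_le_card h2
    rw [Finset.card_map, hS] at h3
    exact h3
  · left
    rw [vd_simple]
    linarith

/-- the dimension inside of the window -/
theorem dim_x : ∃ C : ℝ, 12000 ≤ C ∧ ∀ (h e M r A : ℕ) (n : Fin h → ℕ) (S : Finset (Fin h)),
    3 ≤ h → Reduced e n → 1 ≤ M → M ≤ r → S.card = 9 → (∀ i ∈ S, 1 ≤ n i) →
    (∀ j, j ∉ S → n j ≤ M) → e ^ 2 = ∑ i ∈ S, n i ^ 2 + A →
    C * r + ((∑ i ∈ S, n i : ℕ) : ℝ) ≤ 3 * e → (∀ i ∈ S, C * r + n i ≤ e) →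
    General (fun P => (Module.finrank ℂ (curves e n P) : ℝ) ≤ max ((vd e n : ℤ) : ℝ) 0 +
      C * (((r : ℝ) * M ^ 2 / A) ^ 2 + M + ((A : ℝ) / r) ^ (3 / 4 : ℝ)) *
        Real.log ((A : ℝ) / M ^ 2 + 2) ^ 3) := by
  obtain ⟨C, hC, H⟩ := nine_x
  refine ⟨C + 8, by linarith, ?_⟩
  intro h e M r A n S hh hred hM hMr hS h1 hl hA hs hg
  have hM1 : (1 : ℝ) ≤ M := by exact_mod_cast hM
  have hr0 : (0 : ℝ) ≤ r := Nat.cast_nonneg _
  obtain ⟨B, hB⟩ : ∃ B : ℝ, B = ((r : ℝ) * M ^ 2 / A) ^ 2 + M +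
      ((A : ℝ) / r) ^ (3 / 4 : ℝ) := ⟨_, rfl⟩
  obtain ⟨L, hL⟩ : ∃ L : ℝ, L = Real.log ((A : ℝ) / M ^ 2 + 2) ^ 3 := ⟨_, rfl⟩
  rw [← hB, ← hL]
  have hB1 : 1 ≤ B := by
    have h2 : 0 ≤ ((A : ℝ) / r) ^ (3 / 4 : ℝ) := by positivity
    have h3 : 0 ≤ ((r : ℝ) * M ^ 2 / A) ^ 2 := by positivity
    rw [hB]
    linarith
  have hL1 : 1 ≤ 8 * L := by
    have h2 : 1 / 2 ≤ Real.log ((A : ℝ) / M ^ 2 + 2) := by
      have h3 := Real.log_two_gt_d9
      have h4 : (0 : ℝ) ≤ (A : ℝ) / M ^ 2 := by positivity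
      have h5 : Real.log 2 ≤ Real.log ((A : ℝ) / M ^ 2 + 2) :=
        Real.log_le_log (by norm_num) (by linarith)
      linarith
    have h3 := pow_le_pow_left₀ (by norm_num : (0 : ℝ) ≤ 1 / 2) h2 3
    rw [hL]
    linarith
  have hBL : 1 ≤ 8 * (B * L) := by
    have := one_le_mul_of_one_le_of_one_le hB1 hL1
    linarith
  obtain ⟨W, hW⟩ : ∃ W : ℝ, W = C * B * L := ⟨_, rfl⟩
  have hW0 : 0 ≤ W := by
    rw [hW, mul_assoc]
    exact mul_nonneg (by linarith) (by linarith)
  have hW2 : W + 1 ≤ (C + 8) * B * L := by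
    rw [hW, mul_assoc (C + 8), add_mul, ← mul_assoc]
    linarith
  obtain ⟨k, hk⟩ : ∃ k : ℕ, k = ⌈((vd e n : ℤ) : ℝ) + W⌉₊ := ⟨_, rfl⟩
  have hk1 : ((vd e n : ℤ) : ℝ) + W ≤ k := by
    rw [hk]
    exact Nat.le_ceil _
  have hk2 : (k : ℝ) ≤ max ((vd e n : ℤ) : ℝ) 0 + W + 1 := by
    rcases le_or_gt (((vd e n : ℤ) : ℝ) + W) 0 with h3 | h3
    · rw [hk, Nat.ceil_eq_zero.2 h3, Nat.cast_zero]
      have := le_max_right ((vd e n : ℤ) : ℝ) 0
      linarith
    · have h4 := Nat.ceil_lt_add_one h3.le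
      rw [← hk] at h4
      have := le_max_left ((vd e n : ℤ) : ℝ) 0
      linarith
  have hk3 : vd e n ≤ k := by
    have : ((vd e n : ℤ) : ℝ) ≤ ((k : ℤ) : ℝ) := by
      push_cast
      linarith
    exact_mod_cast this
  refine (dim_k hk3 ?_).mono fun P hP => ?_
  · have hsum : ∀ f : ℕ → ℕ, ∑ i ∈ S.map (Fin.castAddEmb k),
        f ((Fin.append n (fun _ : Fin k => 1)) i) = ∑ i ∈ S, f (n i) := by
      intro f
      rw [Finset.sum_map]
      refine Finset.sum_congr rfl fun i _ => ?_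
      have h2 : (Fin.castAddEmb k) i = Fin.castAdd k i := rfl
      rw [h2, Fin.append_left]
    have hC8 : C * r ≤ (C + 8) * r := mul_le_mul_of_nonneg_right (by linarith) hr0
    refine H (h + k) e M r A (Fin.append n (fun _ : Fin k => 1)) (S.map (Fin.castAddEmb k))
      (by omega) (reduced_simple hred hS h1) hM hMr (by rw [Finset.card_map, hS]) ?_ ?_ ?_ ?_ ?_
    · intro j hj
      induction j using Fin.addCases with
      | left l =>
        rw [Fin.append_left]
        apply hl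
        intro hcon
        exact hj (Finset.mem_map.2 ⟨l, hcon, rfl⟩)
      | right j =>
        rw [Fin.append_right]
        exact hM
    · rw [hsum (fun x => x ^ 2)]
      exact hA
    · rw [hsum (fun x => x)]
      linarith
    · intro i hi
      rw [Finset.mem_map] at hi
      obtain ⟨l, hl2, rfl⟩ := hi
      have h2 : (Fin.castAddEmb k) l = Fin.castAdd k l := rfl
      rw [h2, Fin.append_left]
      have := hg l hl2
      linarith
    · rw [← hB, ← hL, ← hW, vd_simple]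
      push_cast
      rw [abs_of_nonpos (by linarith)]
      linarith
  · have h2 : (Module.finrank ℂ (curves e n P) : ℝ) ≤ k := by exact_mod_cast hP
    linarith

end Pool.Agent.Lib.MP_6b2d39_agVx
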