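import Pool.Agent.Lib.MP_6b2d39_agVx.MainX
import Pool.Agent.Lib.MP_6b2d39_agVx.DimX
import Pool.Agent.Lib.MP_6b2d39_agVx.DegX

/-!
The numbers of a reduced special system: all clauses.
-/

open Polynomial

set_option autoImplicit false

namespace Pool.Agent.Lib.MP_6b2d39_agVx

open Pool.Agent.Lib.MP_6b2d39_ag Pool.Agent.Lib.MP_6b2d39_agHal Pool.Agent.Lib.MP_6b2d39_agVn
  Pool.Agent.Lib.MP_6b2d39_agUn Pool.Agent.Lib.MP_6b2d39_agCr

theorem fx_sum {h : ℕ} (h9 : 9 ≤ h) (f : Fin h → ℕ) :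
    ∑ i : Fin h, (if (i : ℕ) < 9 then f i else 0) = ∑ i : Fin 9, f (Fin.castLE h9 i) := by
  rw [← Finset.sum_filter]
  have h1 : (Finset.univ.filter (fun i : Fin h => (i : ℕ) < 9)) =
      Finset.univ.map (Fin.castLEEmb h9) := by
    ext i
    rw [Finset.mem_filter, Finset.mem_map]
    constructor
    · rintro ⟨-, h2⟩
      exact ⟨⟨i, h2⟩, Finset.mem_univ _, rfl⟩
    · rintro ⟨j, -, rfl⟩
      exact ⟨Finset.mem_univ _, j.2⟩
  rw [h1, Finset.sum_map]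
  rfl

theorem bad_y : ∃ C : ℝ, ∀ (h e : ℕ) (n : Fin h → ℕ), 3 ≤ h → Reduced e n →
    ¬ General (fun P => (Module.finrank ℂ (curves e n P) : ℤ) = max (vd e n) 0) →
    ∀ σ : Equiv.Perm (Fin h), Antitone (fun i => n (σ i)) →
      ∃ (i0 i9 : Fin h) (A s μ : ℕ), (i0 : ℕ) = 0 ∧ (i9 : ℕ) = 9 ∧ μ = n (σ i9) ∧ 1 ≤ μ ∧
        e ^ 2 = ∑ i : Fin h, (if (i : ℕ) < 9 then n (σ i) ^ 2 else 0) + A ∧
        3 * e = ∑ i : Fin h, (if (i : ℕ) < 9 then n (σ i) else 0) + s ∧ 1 ≤ s ∧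
        e ≤ 3 * A ∧ A < 4000000 * μ ^ 3 ∧
        General (fun P => (Module.finrank ℂ (curves e n P) : ℤ) ≤
          max (vd e n) 0 + 15 * (μ : ℤ) ^ 2) ∧
        ∀ (r : ℕ) (W : ℝ), μ ≤ r → C * r ≤ s → C * r + n (σ i0) ≤ e →
          W = C * (((r : ℝ) * μ ^ 2 / A) ^ 2 + μ + ((A : ℝ) / r) ^ (3 / 4 : ℝ)) *
            Real.log ((A : ℝ) / μ ^ 2 + 2) ^ 3 →
          |((vd e n : ℤ) : ℝ)| < W ∧
            General (fun P => (Module.finrank ℂ (curves e n P) : ℝ) ≤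
              max ((vd e n : ℤ) : ℝ) 0 + W) := by
  obtain ⟨C1, H1⟩ := bad_x
  obtain ⟨C2, hC2, H2⟩ := dim_x
  obtain ⟨C, hC⟩ : ∃ C, C = max C1 C2 := ⟨_, rfl⟩
  have e1 : C1 ≤ C := by rw [hC]; exact le_max_left _ _
  have e2 : C2 ≤ C := by rw [hC]; exact le_max_right _ _
  refine ⟨C, fun h e n hh hred hbad σ hσ => ?_⟩
  obtain ⟨i0, i9, A, s, μ, k1, k2, k3, k4, k5, k6, k7, k8, k9⟩ := H1 h e n hh hred hbad σ hσ
  have h10 : 10 ≤ h := by have := i9.2; omega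
  have h9 : 9 ≤ h := by omega
  obtain ⟨τ, hτ⟩ : ∃ τ : Fin 9 ↪ Fin h, τ = (Fin.castLEEmb h9).trans σ.toEmbedding := ⟨_, rfl⟩
  have hτ1 : ∀ i, τ i = σ (Fin.castLE h9 i) := fun i => by rw [hτ]; rfl
  have hanti : Antitone (fun i => n (τ i)) := by
    intro i j hij
    show n (τ j) ≤ n (τ i)
    rw [hτ1, hτ1]
    exact hσ (a := Fin.castLE h9 i) (b := Fin.castLE h9 j) hij
  have hS : (Finset.univ.map τ).card = 9 := by
    rw [Finset.card_map, Finset.card_univ, Fintype.card_fin]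
  have hpos : ∀ i, μ ≤ n (τ i) := by
    intro i
    rw [hτ1, k3]
    apply hσ
    show ((Fin.castLE h9 i : Fin h) : ℕ) ≤ (i9 : ℕ)
    rw [k2]
    have := i.2
    show (i : ℕ) ≤ 9
    omega
  have hS1 : ∀ i ∈ Finset.univ.map τ, 1 ≤ n i := by
    intro i hi
    rw [Finset.mem_map] at hi
    obtain ⟨j, -, rfl⟩ := hi
    exact k4.trans (hpos j)
  have hl : ∀ j, j ∉ Finset.univ.map τ → n j ≤ μ := by
    intro j hj
    obtain ⟨x, rfl⟩ := σ.surjective j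
    rw [k3]
    apply hσ
    show (i9 : ℕ) ≤ (x : ℕ)
    by_contra hcon
    apply hj
    rw [Finset.mem_map]
    refine ⟨⟨x, by omega⟩, Finset.mem_univ _, ?_⟩
    rw [hτ1]
    rfl
  have f1 : ∑ i : Fin h, (if (i : ℕ) < 9 then n (σ i) ^ 2 else 0) = ∑ i, n (τ i) ^ 2 := by
    rw [fx_sum h9 (fun i => n (σ i) ^ 2)]
    exact Finset.sum_congr rfl fun i _ => by rw [hτ1]
  have f2 : ∑ i : Fin h, (if (i : ℕ) < 9 then n (σ i) else 0) = ∑ i, n (τ i) := by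
    rw [fx_sum h9 (fun i => n (σ i))]
    exact Finset.sum_congr rfl fun i _ => by rw [hτ1]
  refine ⟨i0, i9, A, s, μ, k1, k2, k3, k4, k5, k6, k7, ?_, k8, ?_, ?_⟩
  · exact deg_x hred τ hanti (fun i => k4.trans (hpos i)) (by rw [← f1]; exact k5)
      (by rw [← f2]; exact k6) k7
  · exact dim_ten hh hred k4 hS hS1 hl
  · intro r W hr hs hg hW
    have hr0 : (0 : ℝ) ≤ r := Nat.cast_nonneg _
    have hμ0 : (0 : ℝ) ≤ μ := Nat.cast_nonneg _
    obtain ⟨B, hB⟩ : ∃ B : ℝ, B = (((r : ℝ) * μ ^ 2 / A) ^ 2 + μ +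
        ((A : ℝ) / r) ^ (3 / 4 : ℝ)) := ⟨_, rfl⟩
    obtain ⟨L, hL⟩ : ∃ L : ℝ, L = Real.log ((A : ℝ) / μ ^ 2 + 2) ^ 3 := ⟨_, rfl⟩
    have hB0 : 0 ≤ B := by rw [hB]; positivity
    have hL0 : 0 ≤ L := by
      have h4 : (0 : ℝ) ≤ (A : ℝ) / μ ^ 2 := by positivity
      have : 0 ≤ Real.log ((A : ℝ) / μ ^ 2 + 2) := Real.log_nonneg (by linarith)
      rw [hL]
      positivity
    have hBL := mul_nonneg hB0 hL0
    have g1 : C1 * r ≤ C * r := mul_le_mul_of_nonneg_right e1 hr0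
    have g2 : C2 * r ≤ C * r := mul_le_mul_of_nonneg_right e2 hr0
    have w1 : C1 * B * L ≤ W := by
      rw [hW, ← hB, ← hL, mul_assoc, mul_assoc]
      exact mul_le_mul_of_nonneg_right e1 hBL
    have w2 : C2 * B * L ≤ W := by
      rw [hW, ← hB, ← hL, mul_assoc, mul_assoc]
      exact mul_le_mul_of_nonneg_right e2 hBL
    constructor
    · refine lt_of_lt_of_le (k9 r hr (by linarith) (by linarith)) ?_
      rw [← hB, ← hL]
      exact w1
    · refine (H2 h e μ r A n (Finset.univ.map τ) hh hred k4 hr hS hS1 hl ?_ ?_ ?_).mono ?_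
      · rw [Finset.sum_map, ← f1]
        exact k5
      · rw [Finset.sum_map, ← f2]
        have h3 : (3 : ℝ) * e = ((∑ i : Fin h, (if (i : ℕ) < 9 then n (σ i) else 0) : ℕ) : ℝ) +
            s := by exact_mod_cast k6
        rw [h3]
        linarith
      · intro i hi
        rw [Finset.mem_map] at hi
        obtain ⟨j, -, rfl⟩ := hi
        have h3 : n (τ j) ≤ n (σ i0) := by
          rw [hτ1]
          apply hσ
          show (i0 : ℕ) ≤ _
          rw [k1]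
          exact Nat.zero_le _
        have h4 : (n (τ j) : ℝ) ≤ n (σ i0) := by exact_mod_cast h3
        linarith
      · intro P hP
        rw [← hB, ← hL] at hP
        linarith

end Pool.Agent.Lib.MP_6b2d39_agVx
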