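import Pool.Agent.Lib.MP_6b2d39_agVn.FinV
import Pool.Agent.Lib.MP_6b2d39_agTen.NineE

/-!
Anticanonical degree zero.
-/

open Polynomial

set_option autoImplicit false

namespace Pool.Agent.Lib.MP_6b2d39_agVx

open Pool.Agent.Lib.MP_6b2d39_ag Pool.Agent.Lib.MP_6b2d39_agHal Pool.Agent.Lib.MP_6b2d39_agVn
  Pool.Agent.Lib.MP_6b2d39_agCr Pool.Agent.Lib.MP_6b2d39_agNw Pool.Agent.Lib.MP_6b2d39_agWin

private theorem zx_choose (a : ℕ) : (3 * a + 2).choose 2 = 9 * (a + 1).choose 2 + 1 := by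
  have h1 : (3 * a + 2).choose 2 = (3 * a + 2) * (3 * a + 1) / 2 := Nat.choose_two_right _
  have h2 : (a + 1).choose 2 = (a + 1) * a / 2 := Nat.choose_two_right _
  have h3 : (3 * a + 2) * (3 * a + 1) = 9 * ((a + 1) * a) + 2 := by ring
  have h4 : 2 ∣ (a + 1) * a := by
    rw [mul_comm]
    exact (Nat.even_mul_succ_self a).two_dvd
  rw [h1, h2, h3]
  obtain ⟨k, hk⟩ := h4
  rw [hk]
  omega

theorem zero_x {h e : ℕ} {n : Fin h → ℕ} (hred : Reduced e n) (τ : Fin 9 ↪ Fin h)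
    (hτ : Antitone (fun i => n (τ i))) (hs : 3 * e = ∑ i, n (τ i)) :
    General (fun P => (Module.finrank ℂ (curves e n P) : ℤ) = max (vd e n) 0) := by
  have hr : n (τ 0) + n (τ 1) + n (τ 2) ≤ e := by
    have h1 := hred ((Fin.castLEEmb (by norm_num : 3 ≤ 9)).trans τ)
    rw [Fin.sum_univ_three] at h1
    exact h1
  obtain ⟨M, hM1, hM⟩ : ∃ M : ℕ, 1 ≤ M ∧ ∀ j, n j ≤ M :=
    ⟨1 + ∑ j, n j, by omega, fun j => by
      have := Finset.single_le_sum (f := n) (fun i _ => Nat.zero_le _) (Finset.mem_univ j)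
      omega⟩
  refine finish hM1 τ (fun j _ => hM j) ?_
  intro ι _ _ l J _ hmass
  obtain ⟨h1, h2⟩ := ar_zero (m := fun i => n (τ i)) hτ hr hs
  have h1 : e = 3 * n (τ 0) := h1
  have h3 : ∑ i, (n (τ i) + 1).choose 2 = 9 * (n (τ 0) + 1).choose 2 := by
    have h4 : ∀ i ∈ (Finset.univ : Finset (Fin 9)),
        (n (τ i) + 1).choose 2 = (n (τ 0) + 1).choose 2 := by
      intro i _
      have h5 : n (τ i) = n (τ 0) := h2 i
      rw [h5]
    rw [Finset.sum_congr rfl h4, Finset.sum_const, Finset.card_univ, Fintype.card_fin,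
      smul_eq_mul]
  have hm0 : mass l J ≠ 0 := by
    rw [h3, h1, zx_choose] at hmass
    omega
  unfold mass at hm0
  obtain ⟨j, hj, hj0⟩ := Finset.exists_ne_zero_of_sum_ne_zero hm0
  refine core_zero (m := fun i => n (τ i)) hτ hr hs ⟨j, hj, ?_⟩
  by_contra hcon
  apply hj0
  have h5 : l j = 0 := by omega
  rw [h5]
  rfl

end Pool.Agent.Lib.MP_6b2d39_agVx
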