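import Pool.Agent.Lib.MP_6b2d39_agVx.NineX
import Pool.Agent.Lib.MP_6b2d39_agVx.ZeroX
import Pool.Agent.Lib.MP_6b2d39_agVn.MainV
import Pool.Agent.Lib.MP_6b2d39_agRef.AllR

/-!
The numbers of a reduced special system.

PROOF. As `bad_w` (`Vw/MainW.lean`): `h < 10` or `n (σ 9) = 0`: `nonspecial_nine`; `nine_v`; `nine_x`; the clause `1 ≤ s`: `zero_x`
(`∑ ≤ 3 e` by `hred`, as in `nine_exact` of `Ten/NineE.lean`, and `∑ = 3 e` is excluded by `zero_x`).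
-/

open Polynomial

set_option autoImplicit false

namespace Pool.Agent.Lib.MP_6b2d39_agVx

open Pool.Agent.Lib.MP_6b2d39_ag Pool.Agent.Lib.MP_6b2d39_agHal Pool.Agent.Lib.MP_6b2d39_agVn
  Pool.Agent.Lib.MP_6b2d39_agUn Pool.Agent.Lib.MP_6b2d39_agCr

/-- the nine largest multiplicities of a sorted system -/
private theorem mainX_set {h e : ℕ} {n : Fin h → ℕ} (hred : Reduced e n) (h9 : 9 < h)
    (σ : Equiv.Perm (Fin h)) (hσ : Antitone fun i => n (σ i)) (i0 i9 : Fin h)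
    (h0 : (i0 : ℕ) = 0) (hi9 : (i9 : ℕ) = 9) :
    ∃ (τ : Fin 9 ↪ Fin h) (S : Finset (Fin h)) (A s : ℕ), Antitone (fun i => n (τ i)) ∧
      S.card = 9 ∧ (∀ j, j ∉ S → n j ≤ n (σ i9)) ∧
      (∀ j ∈ S, n j ≤ n (σ i0)) ∧ e ^ 2 = ∑ i ∈ S, n i ^ 2 + A ∧
      3 * e = ∑ i ∈ S, n i + s ∧ ∑ i ∈ S, n i = ∑ i, n (τ i) ∧
      ∑ i : Fin h, (if (i : ℕ) < 9 then n (σ i) ^ 2 else 0) = ∑ i ∈ S, n i ^ 2 ∧
      ∑ i : Fin h, (if (i : ℕ) < 9 then n (σ i) else 0) = ∑ i ∈ S, n i := by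
  have h9' : 9 ≤ h := h9.le
  have hmap : (Finset.univ.filter fun i : Fin h => (i : ℕ) < 9) =
      Finset.univ.map (Fin.castLEEmb h9') := by
    ext i
    rw [Finset.mem_filter, Finset.mem_map]
    constructor
    · rintro ⟨-, h1⟩
      exact ⟨⟨i, h1⟩, Finset.mem_univ _, Fin.ext rfl⟩
    · rintro ⟨j, -, rfl⟩
      exact ⟨Finset.mem_univ _, j.2⟩
  have hsum : ∀ g : Fin h → ℕ, ∑ i : Fin h, (if (i : ℕ) < 9 then g (σ i) else 0) =
      ∑ i : Fin 9, g (σ (Fin.castLE h9' i)) := by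
    intro g
    rw [← Finset.sum_filter, hmap, Finset.sum_map]
    rfl
  have hS : ∀ g : Fin h → ℕ,
      ∑ i ∈ Finset.univ.map ((Fin.castLEEmb h9').trans σ.toEmbedding), g i =
        ∑ i : Fin 9, g (σ (Fin.castLE h9' i)) := by
    intro g
    rw [Finset.sum_map]
    rfl
  obtain ⟨m, hm⟩ : ∃ m : Fin 9 → ℕ, m = fun i => n (σ (Fin.castLE h9' i)) := ⟨_, rfl⟩
  have hmA : Antitone m := by
    rw [hm]
    intro i j hij
    exact hσ (show Fin.castLE h9' i ≤ Fin.castLE h9' j from hij)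
  have hr : m 0 + m 1 + m 2 ≤ e := by
    have h1 := hred ⟨![σ ⟨0, by omega⟩, σ ⟨1, by omega⟩, σ ⟨2, by omega⟩], by
      intro a b hab
      fin_cases a <;> fin_cases b <;> simp_all [Fin.ext_iff]⟩
    rw [Fin.sum_univ_three] at h1
    rw [hm]
    exact h1
  have hsum9 : ∑ i, m i ≤ 3 * e := by
    have h1 : ∑ i, m i ≤ 3 * (m 0 + m 1 + m 2) := by
      have a1 : m 1 ≤ m 0 := hmA (by decide)
      have a2 : m 2 ≤ m 1 := hmA (by decide)
      have a3 : m 3 ≤ m 2 := hmA (by decide)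
      have a4 : m 4 ≤ m 2 := hmA (by decide)
      have a5 : m 5 ≤ m 2 := hmA (by decide)
      have a6 : m 6 ≤ m 2 := hmA (by decide)
      have a7 : m 7 ≤ m 2 := hmA (by decide)
      have a8 : m 8 ≤ m 2 := hmA (by decide)
      simp only [Fin.sum_univ_succ, Fin.sum_univ_zero]
      simp only [Fin.succ_zero_eq_one, Fin.succ_one_eq_two]
      change m 0 + (m 1 + (m 2 + (m 3 + (m 4 + (m 5 + (m 6 +
        (m 7 + (m 8 + 0)))))))) ≤ _
      omega
    omega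
  obtain ⟨a, ha1, ha2⟩ := exists_coord hmA hr
  have hp := pr_eq a a
  rw [← ha1, ← ha2] at hp
  refine ⟨(Fin.castLEEmb h9').trans σ.toEmbedding,
    Finset.univ.map ((Fin.castLEEmb h9').trans σ.toEmbedding), pr a a, 3 * e - ∑ i, m i,
    ?_, ?_, ?_, ?_, ?_, ?_, ?_, ?_, ?_⟩
  · rw [hm] at hmA
    exact hmA
  · rw [Finset.card_map, Finset.card_univ, Fintype.card_fin]
  · intro j hj
    have h1 : 9 ≤ ((σ.symm j : Fin h) : ℕ) := by
      by_contra hcon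
      apply hj
      rw [Finset.mem_map]
      refine ⟨⟨(σ.symm j : Fin h), by omega⟩, Finset.mem_univ _, ?_⟩
      exact σ.apply_symm_apply j
    have h2 : n (σ (σ.symm j)) ≤ n (σ i9) := hσ (Fin.le_def.2 (by rw [hi9]; exact h1))
    rwa [σ.apply_symm_apply] at h2
  · intro j hj
    rw [Finset.mem_map] at hj
    obtain ⟨i, -, rfl⟩ := hj
    exact hσ (Fin.le_def.2 (by rw [h0]; exact Nat.zero_le _))
  · rw [hS (fun i => n i ^ 2), pow_two, hp, hm]
    congr 1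
    exact Finset.sum_congr rfl fun i _ => (pow_two _).symm
  · rw [hS n]
    have h1 : ∑ i : Fin 9, n (σ (Fin.castLE h9' i)) = ∑ i, m i := by
      rw [hm]
    rw [h1]
    omega
  · rw [Finset.sum_map]
  · rw [hS (fun i => n i ^ 2)]
    exact hsum (fun i => n i ^ 2)
  · rw [hS n]
    exact hsum n

/-- positive multiplicities lie in the set of the nine largest ones, if the tenth one is small -/
private theorem mainX_card {h : ℕ} {n : Fin h → ℕ} {S : Finset (Fin h)} {M : ℕ}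
    (hS : S.card = 9) (hSM : ∀ j, j ∉ S → n j ≤ M) :
    (Finset.univ.filter (fun i => M < n i)).card ≤ 9 := by
  rw [← hS]
  refine Finset.card_le_card fun i hi => ?_
  rw [Finset.mem_filter] at hi
  by_contra hcon
  have := hSM i hcon
  omega

theorem bad_x : ∃ C : ℝ, ∀ (h e : ℕ) (n : Fin h → ℕ), 3 ≤ h → Reduced e n →
    ¬ General (fun P => (Module.finrank ℂ (curves e n P) : ℤ) = max (vd e n) 0) →
    ∀ σ : Equiv.Perm (Fin h), Antitone (fun i => n (σ i)) →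
      ∃ (i0 i9 : Fin h) (A s μ : ℕ), (i0 : ℕ) = 0 ∧ (i9 : ℕ) = 9 ∧ μ = n (σ i9) ∧ 1 ≤ μ ∧
        e ^ 2 = ∑ i : Fin h, (if (i : ℕ) < 9 then n (σ i) ^ 2 else 0) + A ∧
        3 * e = ∑ i : Fin h, (if (i : ℕ) < 9 then n (σ i) else 0) + s ∧ 1 ≤ s ∧
        A < 4000000 * μ ^ 3 ∧
        ∀ r : ℕ, μ ≤ r → C * r ≤ s → C * r + n (σ i0) ≤ e →
          |((vd e n : ℤ) : ℝ)| <
            C * (((r : ℝ) * μ ^ 2 / A) ^ 2 + μ + ((A : ℝ) / r) ^ (3 / 4 : ℝ)) *
              Real.log ((A : ℝ) / μ ^ 2 + 2) ^ 3 := by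
  obtain ⟨C, hC, hW⟩ := nine_x
  refine ⟨C, fun h e n hh hred hbad σ hσ => ?_⟩
  have h9 : 9 < h := by
    by_contra hcon
    apply hbad
    apply MP_6b2d39_agNw.nonspecial_nine hh hred
    calc (Finset.univ.filter (fun i => 0 < n i)).card ≤ (Finset.univ : Finset (Fin h)).card :=
          Finset.card_filter_le _ _
      _ = h := by rw [Finset.card_univ, Fintype.card_fin]
      _ ≤ 9 := by omega
  obtain ⟨i0, hi0⟩ : ∃ i : Fin h, (i : ℕ) = 0 := ⟨⟨0, by omega⟩, rfl⟩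
  obtain ⟨i9, hi9⟩ : ∃ i : Fin h, (i : ℕ) = 9 := ⟨⟨9, h9⟩, rfl⟩
  obtain ⟨τ, S, A, s, hτ, hS, hSM, hS0, hA, hs, hst, hs2, hs1⟩ :=
    mainX_set hred h9 σ hσ i0 i9 hi0 hi9
  have hμ : 1 ≤ n (σ i9) := by
    by_contra hcon
    have h0 : n (σ i9) = 0 := by omega
    apply hbad
    apply MP_6b2d39_agNw.nonspecial_nine hh hred
    exact mainX_card hS fun j hj => (hSM j hj).trans (le_of_eq h0)
  refine ⟨i0, i9, A, s, n (σ i9), hi0, hi9, rfl, hμ, ?_, ?_, ?_, ?_, ?_⟩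
  · rw [hs2]
    exact hA
  · rw [hs1]
    exact hs
  · by_contra hcon
    have h0 : s = 0 := by omega
    apply hbad
    refine zero_x hred τ hτ ?_
    rw [hs, hst, h0, add_zero]
  · by_contra hcon
    apply hbad
    refine nine_v hh hred hμ hS hSM ?_
    rw [hA]
    omega
  · intro r hr g1 g2
    by_contra hcon
    apply hbad
    refine hW h e (n (σ i9)) r A n S hh hred hμ hr hS hSM hA ?_ (fun i hi => ?_) (not_lt.1 hcon)
    · have h1 : (3 : ℝ) * e = ((∑ i ∈ S, n i : ℕ) : ℝ) + s := by exact_mod_cast hs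
      linarith
    · have h1 : (n i : ℝ) ≤ n (σ i0) := by exact_mod_cast hS0 i hi
      linarith

end Pool.Agent.Lib.MP_6b2d39_agVx
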