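import Pool.Agent.Lib.MP_6b2d39_agVx.WinX
import Pool.Agent.Lib.MP_6b2d39_agVx.NumX
import Pool.Agent.Lib.MP_6b2d39_agVn.NineV
import Pool.Agent.Lib.MP_6b2d39_agHal.Ten

/-!
The window for reduced systems with nine arbitrary multiplicities, with a free parameter `r ≥ M`.

PROOF. The proof of `nine_w` (`Vw/NineW.lean`) with `Λ = 400 r`: `exists_enum` for `S`, `exists_coord`: `e = dg a`, `n (τ i) = mu a i`,
`A = pr a a`, `3 e - ∑_S n i = sg a`, `e - n (τ 0) = gr a 1`. If all `a i < 400 r` for `i ≠ 9` then `sg a < 12000 r`; if all `a i < 400 r` for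
`i ≠ 1` then `e - n (τ 0) < 6800 r`; so `hcase` holds. With `C0` from `num_x`, `C = 160000 C0 + 12000`:
`C0 (((400 r) M ^ 2 / A) ^ 2 + M + (A / (400 r)) ^ (3 / 4)) ≤ C ((r M ^ 2 / A) ^ 2 + M + (A / r) ^ (3 / 4))`. If the left side times `log ^ 3` is
`≥ 15 M ^ 2`: `window_ten` (`Hal/Ten.lean`, at most nine `n i > M`); otherwise `num_x`, `win_x`.
-/

open Polynomial

set_option autoImplicit false

namespace Pool.Agent.Lib.MP_6b2d39_agVx

open Pool.Agent.Lib.MP_6b2d39_ag Pool.Agent.Lib.MP_6b2d39_agHal Pool.Agent.Lib.MP_6b2d39_agVn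
  Pool.Agent.Lib.MP_6b2d39_agUn Pool.Agent.Lib.MP_6b2d39_agCr

theorem nine_x : ∃ C : ℝ, 12000 ≤ C ∧ ∀ (h e M r A : ℕ) (n : Fin h → ℕ) (S : Finset (Fin h)),
    3 ≤ h → Reduced e n → 1 ≤ M → M ≤ r → S.card = 9 → (∀ j, j ∉ S → n j ≤ M) →
    e ^ 2 = ∑ i ∈ S, n i ^ 2 + A →
    C * r + ((∑ i ∈ S, n i : ℕ) : ℝ) ≤ 3 * e → (∀ i ∈ S, C * r + n i ≤ e) →
    C * (((r : ℝ) * M ^ 2 / A) ^ 2 + M + ((A : ℝ) / r) ^ (3 / 4 : ℝ)) *
      Real.log ((A : ℝ) / M ^ 2 + 2) ^ 3 ≤ |((vd e n : ℤ) : ℝ)| →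
    General (fun P => (Module.finrank ℂ (curves e n P) : ℤ) = max (vd e n) 0) := by
  classical
  obtain ⟨C0, hC0, hnum⟩ := num_x
  refine ⟨160000 * C0 + 12000, by linarith, ?_⟩
  intro h e M r A n S hh hred hM hMr hS hSM hA h3 h4 hv
  obtain ⟨C, hC⟩ : ∃ C : ℝ, C = 160000 * C0 + 12000 := ⟨_, rfl⟩
  rw [← hC] at h3 h4 hv
  have hC12 : 12000 ≤ C := by linarith
  have hr0 : 1 ≤ r := le_trans hM hMr
  obtain ⟨τ, hτ, hτS⟩ := exists_enum n hS
  have hsumS : ∀ f : Fin h → ℕ, ∑ i ∈ S, f i = ∑ i, f (τ i) := by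
    intro f
    rw [← hτS, Finset.sum_map]
  have hr : n (τ 0) + n (τ 1) + n (τ 2) ≤ e := by
    have h1 := hred ((Fin.castLEEmb (by norm_num : 3 ≤ 9)).trans τ)
    rw [Fin.sum_univ_three] at h1
    exact h1
  obtain ⟨a, hea, hma⟩ := exists_coord (m := fun i => n (τ i)) hτ hr
  have hmi : ∀ i, n (τ i) = mu a i := fun i => congrFun hma i
  have hAa : A = pr a a := by
    have h1 : ∑ i ∈ S, n i ^ 2 = ∑ i, mu a i * mu a i := by
      rw [hsumS (fun i => n i ^ 2)]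
      refine Finset.sum_congr rfl fun i _ => ?_
      rw [hmi i]
      ring
    have h2 := pr_eq a a
    rw [h1, hea, pow_two, h2] at hA
    omega
  have hdeg : 3 * e = ∑ i ∈ S, n i + sg a := by
    have h1 := om_deg a
    rw [← hea] at h1
    rw [h1, hsumS n, Finset.sum_congr rfl fun i _ => hmi i]
  have hτ' : ∀ j, j ∉ Finset.univ.map τ → n j ≤ M := by
    rw [hτS]
    exact hSM
  -- the anticanonical degree
  have hsgr : 12000 * r ≤ sg a := by
    have h1 : C * r + ((∑ i ∈ S, n i : ℕ) : ℝ) ≤ ((3 * e : ℕ) : ℝ) := by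
      push_cast
      push_cast at h3
      exact h3
    rw [hdeg, Nat.cast_add] at h1
    have h2 : (12000 : ℝ) * r ≤ C * r := mul_le_mul_of_nonneg_right hC12 (Nat.cast_nonneg r)
    have h5 : (12000 : ℝ) * r ≤ sg a := by linarith
    exact_mod_cast h5
  have hgr : 12000 * r + n (τ 0) ≤ e := by
    have h1 := h4 (τ 0) (by rw [← hτS]; exact Finset.mem_map_of_mem _ (Finset.mem_univ _))
    have h2 : (12000 : ℝ) * r ≤ C * r := mul_le_mul_of_nonneg_right hC12 (Nat.cast_nonneg r)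
    have h5 : (12000 : ℝ) * r + n (τ 0) ≤ e := by linarith
    exact_mod_cast h5
  have hcase : (∃ i, i ≠ 1 ∧ i ≠ 9 ∧ 400 * r ≤ a i) ∨ (400 * r ≤ a 1 ∧ 400 * r ≤ a 9) := by
    by_contra hcon
    push Not at hcon
    obtain ⟨hc1, hc2⟩ := hcon
    have k0 := hc1 0 (by decide) (by decide)
    have k2 := hc1 2 (by decide) (by decide)
    have k3 := hc1 3 (by decide) (by decide)
    have k4 := hc1 4 (by decide) (by decide)
    have k5 := hc1 5 (by decide) (by decide)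
    have k6 := hc1 6 (by decide) (by decide)
    have k7 := hc1 7 (by decide) (by decide)
    have k8 := hc1 8 (by decide) (by decide)
    rcases Nat.lt_or_ge (a 1) (400 * r) with k1 | k1
    · have h1 : sg a = 3 * a 0 + 2 * a 1 + 4 * a 2 + 6 * a 3 + 5 * a 4 + 4 * a 5 + 3 * a 6 +
        2 * a 7 + a 8 := rfl
      omega
    · have k9 := hc2 k1
      have h1 : mu a 0 = a 1 + a 2 + a 3 + a 4 + a 5 + a 6 + a 7 + a 8 + a 9 := rfl
      have h2 : dg a = a 0 + a 1 + 2 * a 2 + 3 * (a 3 + a 4 + a 5 + a 6 + a 7 + a 8 + a 9) := rfl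
      have h5 := hmi 0
      omega
  have hA1 : 1 ≤ A := by
    rw [hAa]
    have hone : ∀ i, 1 ≤ a i → 1 ≤ gr a i → 1 ≤ pr a a := by
      intro i h1 h2
      have h5 : a i * gr a i ≤ pr a a :=
        Finset.single_le_sum (f := fun j => a j * gr a j) (fun _ _ => Nat.zero_le _)
          (Finset.mem_univ i)
      exact le_trans (Nat.mul_pos h1 h2) h5
    rcases hcase with ⟨i, hi1, hi9, hi⟩ | ⟨h1, h9⟩
    · have hi0 : 1 ≤ a i := by omega
      refine hone i hi0 ?_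
      fin_cases i
      · show 1 ≤ a 0 + a 1 + 2 * a 2 + 3 * (a 3 + a 4 + a 5 + a 6 + a 7 + a 8 + a 9)
        have h5 : 1 ≤ a 0 := hi0
        omega
      · exact absurd rfl hi1
      · show 1 ≤ 2 * a 0 + a 1 + 2 * a 2 + 4 * (a 3 + a 4 + a 5 + a 6 + a 7 + a 8 + a 9)
        have h5 : 1 ≤ a 2 := hi0
        omega
      · show 1 ≤ 3 * a 0 + 2 * a 1 + 4 * a 2 + 6 * (a 3 + a 4 + a 5 + a 6 + a 7 + a 8 + a 9)
        have h5 : 1 ≤ a 3 := hi0
        omega
      · show 1 ≤ 3 * a 0 + 2 * a 1 + 4 * a 2 + 6 * a 3 + 5 * (a 4 + a 5 + a 6 + a 7 + a 8 + a 9)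
        have h5 : 1 ≤ a 4 := hi0
        omega
      · show 1 ≤ 3 * a 0 + 2 * a 1 + 4 * a 2 + 6 * a 3 + 5 * a 4 +
          4 * (a 5 + a 6 + a 7 + a 8 + a 9)
        have h5 : 1 ≤ a 5 := hi0
        omega
      · show 1 ≤ 3 * a 0 + 2 * a 1 + 4 * a 2 + 6 * a 3 + 5 * a 4 + 4 * a 5 +
          3 * (a 6 + a 7 + a 8 + a 9)
        have h5 : 1 ≤ a 6 := hi0
        omega
      · show 1 ≤ 3 * a 0 + 2 * a 1 + 4 * a 2 + 6 * a 3 + 5 * a 4 + 4 * a 5 + 3 * a 6 +
          2 * (a 7 + a 8 + a 9)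
        have h5 : 1 ≤ a 7 := hi0
        omega
      · show 1 ≤ 3 * a 0 + 2 * a 1 + 4 * a 2 + 6 * a 3 + 5 * a 4 + 4 * a 5 + 3 * a 6 + 2 * a 7 +
          (a 8 + a 9)
        have h5 : 1 ≤ a 8 := hi0
        omega
      · exact absurd rfl hi9
    · refine hone 1 (by omega) ?_
      show 1 ≤ a 0 + a 2 + 2 * (a 3 + a 4 + a 5 + a 6 + a 7 + a 8 + a 9)
      omega
  -- the two cases
  rcases le_or_gt (15 * (M : ℝ) ^ 2) |((vd e n : ℤ) : ℝ)| with hbig | hsm
  · have hsub : Finset.univ.filter (fun i => M < n i) ⊆ S := by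
      intro i hi
      by_contra hcon
      exact absurd (hSM i hcon) (not_le.2 (Finset.mem_filter.1 hi).2)
    refine window_ten hh hred hM (le_trans (Finset.card_le_card hsub) hS.le) ?_
    have h1 : 15 * (M : ℤ) ^ 2 ≤ |vd e n| := by
      have h2 : ((15 * (M : ℤ) ^ 2 : ℤ) : ℝ) ≤ ((|vd e n| : ℤ) : ℝ) := by
        push_cast
        exact hbig
      exact_mod_cast h2
    rcases le_abs.1 h1 with h2 | h2
    · right
      nlinarith [sq_nonneg (M : ℤ)]
    · left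
      omega
  · obtain ⟨l, hl⟩ : ∃ l : ℝ, l = Real.log ((A : ℝ) / M ^ 2 + 2) := ⟨_, rfl⟩
    have hl0 : 0 ≤ l := by
      rw [hl]
      refine Real.log_nonneg ?_
      have h5 : (0 : ℝ) ≤ (A : ℝ) / M ^ 2 := by positivity
      linarith
    have hle : C0 * ((((400 * r : ℕ) : ℝ) * M ^ 2 / A) ^ 2 + M +
        ((A : ℝ) / ((400 * r : ℕ) : ℝ)) ^ (3 / 4 : ℝ)) * Real.log ((A : ℝ) / M ^ 2 + 2) ^ 3 ≤
        C * (((r : ℝ) * M ^ 2 / A) ^ 2 + M + ((A : ℝ) / r) ^ (3 / 4 : ℝ)) *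
        Real.log ((A : ℝ) / M ^ 2 + 2) ^ 3 := by
      rw [← hl]
      refine mul_le_mul_of_nonneg_right ?_ (pow_nonneg hl0 3)
      obtain ⟨X, hX⟩ : ∃ X : ℝ, X = ((r : ℝ) * M ^ 2 / A) ^ 2 := ⟨_, rfl⟩
      obtain ⟨Y, hY⟩ : ∃ Y : ℝ, Y = ((A : ℝ) / r) ^ (3 / 4 : ℝ) := ⟨_, rfl⟩
      have h5 : (((400 * r : ℕ) : ℝ) * M ^ 2 / A) ^ 2 = 160000 * X := by
        rw [hX]
        push_cast
        ring
      have h6 : ((A : ℝ) / ((400 * r : ℕ) : ℝ)) ^ (3 / 4 : ℝ) ≤ Y := by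
        rw [hY]
        refine Real.rpow_le_rpow (by positivity) ?_ (by norm_num)
        refine div_le_div_of_nonneg_left (Nat.cast_nonneg A) (by exact_mod_cast hr0) ?_
        push_cast
        have : (0 : ℝ) ≤ r := Nat.cast_nonneg r
        linarith
      rw [h5, ← hX, ← hY]
      have hX0 : 0 ≤ X := by rw [hX]; positivity
      have hY0 : 0 ≤ Y := by rw [hY]; positivity
      have hM0 : (0 : ℝ) ≤ M := Nat.cast_nonneg M
      have hC00 : 0 ≤ C0 := by linarith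
      have h7 : C0 * (160000 * X + M + ((A : ℝ) / ((400 * r : ℕ) : ℝ)) ^ (3 / 4 : ℝ)) ≤
          C0 * (160000 * (X + M + Y)) := by
        refine mul_le_mul_of_nonneg_left ?_ hC00
        linarith
      have h8 : C0 * (160000 * (X + M + Y)) ≤ C * (X + M + Y) := by
        rw [← mul_assoc]
        refine mul_le_mul_of_nonneg_right ?_ (by linarith)
        linarith
      exact le_trans h7 h8
    obtain ⟨W, hW1, hW2⟩ := hnum M A (400 * r) hM hA1 (by omega)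
      (lt_of_le_of_lt (le_trans hle hv) hsm)
    have hWv : (W : ℤ) ≤ |vd e n| := by
      have h5 : (W : ℝ) ≤ |((vd e n : ℤ) : ℝ)| := le_trans hW1 (le_trans hle hv)
      have h6 : ((W : ℤ) : ℝ) ≤ ((|vd e n| : ℤ) : ℝ) := by
        push_cast
        exact h5
      exact_mod_cast h6
    have hN : NwX M (400 * r) a W :=
      { hM := hM
        hΛ := by omega
        hs := by omega
        hcase := hcase
        num := by
          rw [← hAa]
          exact hW2 }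
    exact win_x τ hea hmi hτ' hN hWv

end Pool.Agent.Lib.MP_6b2d39_agVx
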